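import Pool.Agent.Work.MP_426d99_co.Walk

open Finset Classical

namespace RGraph

variable {V E : Type}

/-- The subgraph on a set of vertices. -/
def sub (ends : E → Sym2 V) (S : Set V) : {e : E // ∀ x ∈ ends e, x ∈ S} → Sym2 S :=
  fun e => (ends e.1).attachWith e.2

theorem sub_eq_iff {ends : E → Sym2 V} {S : Set V} (e : {e : E // ∀ x ∈ ends e, x ∈ S})
    (x y : S) : sub ends S e = s(x, y) ↔ ends e.1 = s(x.1, y.1) := by
  have h1 : Sym2.map Subtype.val (sub ends S e) = ends e.1 := by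
    unfold sub
    exact Sym2.attachWith_map_subtypeVal _
  rw [← h1]
  constructor
  · intro h
    rw [h]
    rfl
  · intro h
    have : Function.Injective (Sym2.map (Subtype.val : S → V)) :=
      Sym2.map.injective Subtype.val_injective
    apply this
    rw [h]
    rfl

theorem mem_sub {ends : E → Sym2 V} {S : Set V} (e : {e : E // ∀ x ∈ ends e, x ∈ S})
    (x : S) : x ∈ sub ends S e ↔ x.1 ∈ ends e.1 := by
  constructor
  · rintro ⟨y, hy⟩
    rw [sub_eq_iff] at hy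
    rw [hy]; simp
  · rintro ⟨y, hy⟩
    have hyS : y ∈ S := e.2 y (by rw [hy]; simp)
    exact ⟨⟨y, hyS⟩, (sub_eq_iff e x ⟨y, hyS⟩).2 hy⟩

theorem closed_of {ends : E → Sym2 V} {S : Set V} (hS : boundary ends S = ∅) {e : E} {v : V}
    (hv : v ∈ S) (hve : v ∈ ends e) : ∀ x ∈ ends e, x ∈ S := by
  obtain ⟨w, hw⟩ := hve
  intro x hx
  rw [hw, Sym2.mem_iff] at hx
  rcases hx with rfl | rfl
  · exact hv
  · by_contra hxS
    have : e ∈ boundary ends S := ⟨v, hv, x, hxS, hw⟩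
    rw [hS] at this
    exact this

theorem boundary_sub {ends : E → Sym2 V} {S : Set V} (hS : boundary ends S = ∅) (X : Set S) :
    boundary ends (Subtype.val '' X) = Subtype.val '' boundary (sub ends S) X := by
  ext e
  constructor
  · rintro ⟨x, ⟨x', hx', rfl⟩, y, hy, hxy⟩
    have hcl := closed_of hS x'.2 (show x'.1 ∈ ends e by rw [hxy]; simp)
    have hyS : y ∈ S := hcl y (by rw [hxy]; simp)
    refine ⟨⟨e, hcl⟩, ⟨x', hx', ⟨y, hyS⟩, ?_, ?_⟩, rfl⟩
    · intro h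
      exact hy ⟨⟨y, hyS⟩, h, rfl⟩
    · rw [sub_eq_iff]; exact hxy
  · rintro ⟨e', ⟨x, hx, y, hy, hxy⟩, rfl⟩
    rw [sub_eq_iff] at hxy
    refine ⟨x.1, ⟨x, hx, rfl⟩, y.1, ?_, hxy⟩
    rintro ⟨y', hy', hyy⟩
    rw [Subtype.ext hyy] at hy'
    exact hy hy'

theorem sub_isRGraph [Finite V] [Finite E] {r : ℕ} {ends : E → Sym2 V} (h : IsRGraph r ends)
    {S : Set V} (hS : boundary ends S = ∅) : IsRGraph r (sub ends S) := by
  have hcard : ∀ X : Set S, (boundary (sub ends S) X).ncard =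
      (boundary ends (Subtype.val '' X)).ncard := by
    intro X
    rw [boundary_sub hS, Set.ncard_image_of_injective _ Subtype.val_injective]
  refine ⟨?_, ?_, ?_⟩
  · intro e
    obtain ⟨x, y, hxy⟩ := exists_ends (sub ends S) e
    rw [hxy]
    rw [sub_eq_iff] at hxy
    have := ne_of_ends h hxy
    simp only [Sym2.isDiag_iff_proj_eq]
    intro h'
    exact this (congrArg Subtype.val h')
  · intro v
    rw [hcard]
    simp only [Set.image_singleton]
    exact h.regular _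
  · intro X hX
    rw [hcard]
    apply h.odd
    rwa [Set.ncard_image_of_injective _ Subtype.val_injective]

theorem hasPMs_sub {ends : E → Sym2 V} {S : Set V} (hS : boundary ends S = ∅) {t : ℕ}
    (h : HasPMs ends t) : HasPMs (sub ends S) t := by
  obtain ⟨F, hF, hd⟩ := h
  refine ⟨fun i => Subtype.val ⁻¹' F i, ?_, fun i j hij => (hd i j hij).preimage _⟩
  intro i v
  obtain ⟨e, ⟨he, hve⟩, huniq⟩ := hF i v.1
  refine ⟨⟨e, closed_of hS v.2 hve⟩, ⟨he, (mem_sub _ _).2 hve⟩, ?_⟩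
  rintro e' ⟨he', hve'⟩
  rw [mem_sub] at hve'
  exact Subtype.ext (huniq e'.1 ⟨he', hve'⟩)

theorem hasPMs_union {ends : E → Sym2 V} {S : Set V} (hS : boundary ends S = ∅) {t : ℕ}
    (h1 : HasPMs (sub ends S) t) (h2 : HasPMs (sub ends Sᶜ) t) : HasPMs ends t := by
  obtain ⟨F, hF, hd⟩ := h1
  obtain ⟨F', hF', hd'⟩ := h2
  have hS' : boundary ends Sᶜ = ∅ := by rw [boundary_compl, hS]
  have hdisj : ∀ (e : {e : E // ∀ x ∈ ends e, x ∈ S}) (e' : {e : E // ∀ x ∈ ends e, x ∈ Sᶜ}),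
      e.1 ≠ e'.1 := by
    intro e e' hee
    obtain ⟨u, v, huv⟩ := exists_ends ends e.1
    have h1 : u ∈ S := e.2 u (by rw [huv]; simp)
    have h2 : u ∈ Sᶜ := e'.2 u (by rw [← hee, huv]; simp)
    exact h2 h1
  refine ⟨fun i => Subtype.val '' F i ∪ Subtype.val '' F' i, ?_, ?_⟩
  · intro i v
    by_cases hv : v ∈ S
    · obtain ⟨e, ⟨he, hve⟩, huniq⟩ := hF i ⟨v, hv⟩
      refine ⟨e.1, ⟨Or.inl ⟨e, he, rfl⟩, (mem_sub _ _).1 hve⟩, ?_⟩
      rintro e' ⟨he', hve'⟩
      rcases he' with ⟨e'', he'', rfl⟩ | ⟨e'', he'', rfl⟩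
      · exact congrArg Subtype.val (huniq e'' ⟨he'', (mem_sub _ _).2 hve'⟩)
      · exact absurd hv (e''.2 v hve')
    · obtain ⟨e, ⟨he, hve⟩, huniq⟩ := hF' i ⟨v, hv⟩
      refine ⟨e.1, ⟨Or.inr ⟨e, he, rfl⟩, (mem_sub _ _).1 hve⟩, ?_⟩
      rintro e' ⟨he', hve'⟩
      rcases he' with ⟨e'', he'', rfl⟩ | ⟨e'', he'', rfl⟩
      · exact absurd (e''.2 v hve') hv
      · exact congrArg Subtype.val (huniq e'' ⟨he'', (mem_sub _ _).2 hve'⟩)
  · intro i j hij
    rw [Set.disjoint_left]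
    rintro e (⟨a, ha, rfl⟩ | ⟨a, ha, rfl⟩) (⟨b, hb, hab⟩ | ⟨b, hb, hab⟩)
    · rw [Subtype.ext hab] at hb
      exact Set.disjoint_left.1 (hd i j hij) ha hb
    · exact hdisj a b hab.symm
    · exact hdisj b a hab
    · rw [Subtype.ext hab] at hb
      exact Set.disjoint_left.1 (hd' i j hij) ha hb

theorem nonempty_of_piEq {ends : E → Sym2 V} {k : ℕ} (h : PiEq ends k) : Nonempty V := by
  by_contra hV
  rw [not_nonempty_iff] at hV
  have : HasPMs ends (k + 1) :=
    ⟨fun _ => ∅, fun i v => (hV.false v).elim, fun i j _ => by simp⟩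
  have := h.2 _ this
  omega

theorem connected_of_inT [Finite V] [Finite E] {r k : ℕ} {ends : E → Sym2 V}
    (h : InT r k ends) : Connected ends := by
  obtain ⟨hr, hpi, hmin⟩ := h
  refine ⟨nonempty_of_piEq hpi, ?_⟩
  by_contra hcon
  push Not at hcon
  obtain ⟨u, v, huv⟩ := hcon
  let S : Set V := {x | Relation.ReflTransGen (fun x y => ∃ e, ends e = s(x, y)) u x}
  have hS : boundary ends S = ∅ := by
    rw [Set.eq_empty_iff_forall_notMem]
    rintro e ⟨x, hx, y, hy, hxy⟩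
    exact hy (Relation.ReflTransGen.tail hx ⟨e, hxy⟩)
  have hS' : boundary ends Sᶜ = ∅ := by rw [boundary_compl, hS]
  have huS : u ∈ S := Relation.ReflTransGen.refl
  have hvS : v ∉ S := huv
  rw [piEq_iff] at hpi
  have key : ∀ T : Set V, boundary ends T = ∅ → T ≠ Set.univ → HasPMs (sub ends T) (k + 1) := by
    intro T hT hTne
    by_contra hno
    have h1 := hmin T {e : E // ∀ x ∈ ends e, x ∈ T} (sub ends T) (sub_isRGraph hr hT)
      (piEq_iff.2 ⟨hasPMs_sub hT hpi.1, hno⟩)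
    have h2 : T.ncard < Nat.card V := by
      rw [← Set.ncard_univ]
      exact Set.ncard_lt_ncard (Set.ssubset_univ_iff.2 hTne) (Set.toFinite _)
    rw [← Nat.card_coe_set_eq] at h2
    omega
  have k1 := key S hS (fun h' => hvS (h' ▸ Set.mem_univ v))
  have k2 := key Sᶜ hS' (fun h' => by
    have : u ∈ Sᶜ := h' ▸ Set.mem_univ u
    exact this huS)
  exact hpi.2 (hasPMs_union hS k1 k2)

end RGraph
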