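import Pool.Agent.Work.MP_426d99_co.Defs

open Finset Classical

namespace RGraph

variable {V E : Type}

theorem exists_ends (ends : E → Sym2 V) (e : E) : ∃ u v, ends e = s(u, v) := by
  induction h : ends e using Sym2.ind with
  | _ x y => exact ⟨x, y, rfl⟩

theorem mem_boundary {ends : E → Sym2 V} {e : E} {u v : V} (h : ends e = s(u, v)) (X : Set V) :
    e ∈ boundary ends X ↔ ¬ (u ∈ X ↔ v ∈ X) := by
  unfold boundary
  simp only [Set.mem_setOf_eq, h]
  constructor
  · rintro ⟨x, hx, y, hy, he⟩
    rcases Sym2.eq_iff.1 he with ⟨rfl, rfl⟩ | ⟨rfl, rfl⟩ <;> tauto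
  · intro hne
    by_cases hu : u ∈ X
    · exact ⟨u, hu, v, by tauto, rfl⟩
    · exact ⟨v, by tauto, u, hu, Sym2.eq_swap⟩

/-- The indicator of the boundary. -/
noncomputable def ind (ends : E → Sym2 V) (X : Set V) (e : E) : ℕ :=
  if e ∈ boundary ends X then 1 else 0

theorem ind_eq {ends : E → Sym2 V} {e : E} {u v : V} (h : ends e = s(u, v)) (X : Set V) :
    ind ends X e = if (u ∈ X ↔ v ∈ X) then 0 else 1 := by
  unfold ind
  rw [mem_boundary h]
  by_cases hh : (u ∈ X ↔ v ∈ X) <;> simp [hh]

theorem ncard_eq [Fintype E] (ends : E → Sym2 V) (X : Set V) :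
    (boundary ends X).ncard = ∑ e, ind ends X e := by
  unfold ind
  rw [Set.ncard_eq_toFinset_card', Finset.sum_boole]
  simp

theorem ind_compl (ends : E → Sym2 V) (X : Set V) (e : E) : ind ends Xᶜ e = ind ends X e := by
  obtain ⟨u, v, h⟩ := exists_ends ends e
  rw [ind_eq h, ind_eq h]
  simp only [Set.mem_compl_iff]
  by_cases h1 : u ∈ X <;> by_cases h2 : v ∈ X <;> simp [h1, h2]

theorem boundary_compl (ends : E → Sym2 V) (X : Set V) :
    boundary ends Xᶜ = boundary ends X := by
  ext e
  obtain ⟨u, v, h⟩ := exists_ends ends e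
  rw [mem_boundary h, mem_boundary h]
  simp only [Set.mem_compl_iff]
  tauto

theorem submod [Finite E] (ends : E → Sym2 V) (X Y : Set V) :
    (boundary ends (X ∩ Y)).ncard + (boundary ends (X ∪ Y)).ncard ≤
      (boundary ends X).ncard + (boundary ends Y).ncard := by
  have := Fintype.ofFinite E
  rw [ncard_eq, ncard_eq, ncard_eq, ncard_eq, ← Finset.sum_add_distrib, ← Finset.sum_add_distrib]
  apply Finset.sum_le_sum
  intro e _
  obtain ⟨u, v, h⟩ := exists_ends ends e
  rw [ind_eq h, ind_eq h, ind_eq h, ind_eq h]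
  simp only [Set.mem_inter_iff, Set.mem_union]
  by_cases h1 : u ∈ X <;> by_cases h2 : v ∈ X <;> by_cases h3 : u ∈ Y <;>
    by_cases h4 : v ∈ Y <;> simp [h1, h2, h3, h4]

theorem posimod [Finite E] (ends : E → Sym2 V) (X Y : Set V) {e : E} {u v : V}
    (he : ends e = s(u, v)) (hu : u ∈ X ∩ Y) (hv : v ∉ X ∪ Y) :
    (boundary ends (X \ Y)).ncard + (boundary ends (Y \ X)).ncard <
      (boundary ends X).ncard + (boundary ends Y).ncard := by
  have := Fintype.ofFinite E
  rw [ncard_eq, ncard_eq, ncard_eq, ncard_eq, ← Finset.sum_add_distrib, ← Finset.sum_add_distrib]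
  apply Finset.sum_lt_sum
  · intro e _
    obtain ⟨u, v, h⟩ := exists_ends ends e
    rw [ind_eq h, ind_eq h, ind_eq h, ind_eq h]
    simp only [Set.mem_diff]
    by_cases h1 : u ∈ X <;> by_cases h2 : v ∈ X <;> by_cases h3 : u ∈ Y <;>
      by_cases h4 : v ∈ Y <;> simp [h1, h2, h3, h4]
  · refine ⟨e, Finset.mem_univ _, ?_⟩
    rw [ind_eq he, ind_eq he, ind_eq he, ind_eq he]
    simp only [Set.mem_diff]
    simp only [Set.mem_inter_iff] at hu
    simp only [Set.mem_union, not_or] at hv
    simp [hu.1, hu.2, hv.1, hv.2]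

theorem parity [Finite V] [Finite E] {r : ℕ} {ends : E → Sym2 V}
    (hr : ∀ v, (boundary ends {v}).ncard = r) (X : Set V) :
    (boundary ends X).ncard % 2 = (X.ncard * r) % 2 := by
  have := Fintype.ofFinite E
  have key : ∀ X : Set V, X.Finite → (boundary ends X).ncard % 2 = (X.ncard * r) % 2 := by
    intro X hX
    induction X, hX using Set.Finite.induction_on with
    | empty =>
      have : boundary ends (∅ : Set V) = ∅ := by
        ext e
        simp [boundary]
      simp [this]
    | @insert v X hv hX ih =>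
      rw [Set.ncard_insert_of_notMem hv hX]
      have h1 : ((boundary ends (insert v X)).ncard + (boundary ends X).ncard +
          (boundary ends {v}).ncard) % 2 = 0 := by
        rw [ncard_eq, ncard_eq, ncard_eq, ← Finset.sum_add_distrib, ← Finset.sum_add_distrib]
        apply Nat.mod_eq_zero_of_dvd
        apply Finset.dvd_sum
        intro e _
        obtain ⟨a, b, h⟩ := exists_ends ends e
        rw [ind_eq h, ind_eq h, ind_eq h]
        simp only [Set.mem_insert_iff, Set.mem_singleton_iff]
        by_cases h1 : a ∈ X <;> by_cases h2 : b ∈ X <;> by_cases h3 : a = v <;>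
          by_cases h4 : b = v <;> simp_all
      rw [hr v] at h1
      have h2 : ((X.ncard + 1) * r) = X.ncard * r + r := by ring
      rw [h2]
      omega
  exact key X (Set.toFinite X)

theorem even_card [Finite V] [Finite E] {r : ℕ} (hr0 : 1 ≤ r) {ends : E → Sym2 V}
    (h : IsRGraph r ends) : Even (Nat.card V) := by
  by_contra hodd
  rw [Nat.not_even_iff_odd] at hodd
  have h1 := h.odd Set.univ (by rwa [Set.ncard_univ])
  have h2 : boundary ends (Set.univ : Set V) = ∅ := by
    ext e
    simp [boundary]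
  rw [h2] at h1
  simp at h1
  omega

end RGraph
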