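import Mathlib

/-!
# `r`-graphs, disjoint perfect matchings and `H`-colourings

A finite loopless multigraph with vertex set `V` and edge set `E` is given by the map
`ends : E → Sym2 V` sending an edge to the unordered pair of its two ends.
-/

namespace RGraph

variable {V E : Type}

/-- The edges with exactly one end in `X`. -/
def boundary (ends : E → Sym2 V) (X : Set V) : Set E :=
  {e | ∃ x ∈ X, ∃ y ∉ X, ends e = s(x, y)}

/-- `ends` is an `r`-graph: loopless, `r`-regular, and every odd set of vertices has at least `r`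
boundary edges. -/
structure IsRGraph (r : ℕ) (ends : E → Sym2 V) : Prop where
  loopless : ∀ e, ¬ (ends e).IsDiag
  regular : ∀ v, (boundary ends {v}).ncard = r
  odd : ∀ X : Set V, Odd X.ncard → r ≤ (boundary ends X).ncard

/-- `M` is a perfect matching. -/
def IsPM (ends : E → Sym2 V) (M : Set E) : Prop :=
  ∀ v, ∃! e, e ∈ M ∧ v ∈ ends e

/-- There are `t` pairwise disjoint perfect matchings. -/
def HasPMs (ends : E → Sym2 V) (t : ℕ) : Prop :=
  ∃ F : Fin t → Set E, (∀ i, IsPM ends (F i)) ∧ ∀ i j, i ≠ j → Disjoint (F i) (F j)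

/-- `π(G) = k`: the largest number of pairwise disjoint perfect matchings is `k`. -/
def PiEq (ends : E → Sym2 V) (k : ℕ) : Prop :=
  HasPMs ends k ∧ ∀ t, HasPMs ends t → t ≤ k

/-- `G ∈ 𝒯(r, k)`: an `r`-graph with `π(G) = k` of smallest order. -/
def InT (r k : ℕ) (ends : E → Sym2 V) : Prop :=
  IsRGraph r ends ∧ PiEq ends k ∧
    ∀ (V' E' : Type) [Finite V'] [Finite E'] (ends' : E' → Sym2 V'),
      IsRGraph r ends' → PiEq ends' k → Nat.card V ≤ Nat.card V'

/-- `H` (given by `endsH`) colours `G` (given by `ends`). -/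
def Colours {V' E' : Type} (endsH : E' → Sym2 V') (ends : E → Sym2 V) : Prop :=
  ∃ f : E → E', ∀ u : V, ∃ v : V', f '' boundary ends {u} = boundary endsH {v}

/-- The graph is connected. -/
def Connected (ends : E → Sym2 V) : Prop :=
  Nonempty V ∧ ∀ u v : V, Relation.ReflTransGen (fun x y => ∃ e, ends e = s(x, y)) u v

/-- `G ∈ ℋ_r`, in the form of the characterisation of the problem file: `G` is a connected
`r`-graph which is not coloured by an `r`-graph with fewer vertices. -/
def InH (r : ℕ) (ends : E → Sym2 V) : Prop :=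
  IsRGraph r ends ∧ Connected ends ∧
    ∀ (V' E' : Type) [Finite V'] [Finite E'] (ends' : E' → Sym2 V'),
      IsRGraph r ends' → Colours ends' ends → Nat.card V ≤ Nat.card V'

end RGraph
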