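import Pool.Agent.Work.MP_426d99_co.Rep

open Finset Classical

namespace RGraph.Gad

/-- A perfect matching of the gadget, as a pairing. -/
def pq : Fin 10 ≃ Fin 5 × Bool where
  toFun := ![(2, true), (0, false), (1, false), (1, true), (2, false), (3, true), (0, true),
    (4, false), (3, false), (4, true)]
  invFun p := if p.2 then (![6, 3, 0, 5, 9] : Fin 5 → Fin 10) p.1 else
    (![1, 2, 4, 8, 7] : Fin 5 → Fin 10) p.1
  left_inv := by decide
  right_inv := by decide

/-- The edges of this perfect matching. -/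
def nQ {w : ℕ} (hw : 0 < w) : Fin 5 → Fin 10 ⊕ (Fin 4 × Fin w) :=
  ![Sum.inr (0, ⟨0, hw⟩), Sum.inl 2, Sum.inl 4, Sum.inl 9, Sum.inl 6]

theorem q_nQ {w : ℕ} (hw : 0 < w) (j : Fin 5) :
    q w (nQ hw j) = s(pq.symm (j, false), pq.symm (j, true)) := by
  fin_cases j <;> rfl

/-- The statement of the induction. -/
def Good (r : ℕ) : Prop :=
  ∃ (V E I : Type) (_ : Finite V) (_ : Finite E) (_ : Finite I) (ends : E → Sym2 V)
    (φ : V ≃ I × Bool) (n : I → E), IsRGraph r ends ∧
      (∀ i, ends (n i) = s(φ.symm (i, false), φ.symm (i, true))) ∧ ¬ HasPMs ends 2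

theorem good_of_rep {V E I : Type} [Finite V] [Finite E] [Finite I] {r : ℕ} (hr : 2 ≤ r)
    {ends : E → Sym2 V} {φ : V ≃ I × Bool} {n : I → E} (h : IsRGraph r ends)
    (hn : ∀ i, ends (n i) = s(φ.symm (i, false), φ.symm (i, true)))
    (hno : ¬ HasPMs (rep ends φ n (r - 1)) 2) : Good (r + 1) := by
  have hw : 0 < r - 1 := by omega
  refine ⟨I × Fin 10, {e : E // ∀ i, e ≠ n i} ⊕ (I × (Fin 10 ⊕ (Fin 4 × Fin (r - 1)))),
    I × Fin 5, inferInstance, inferInstance, inferInstance, rep ends φ n (r - 1),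
    ((Equiv.refl I).prodCongr pq).trans (Equiv.prodAssoc I (Fin 5) Bool).symm,
    fun p => Sum.inr (p.1, nQ hw p.2), rep_isRGraph hr h hn, ?_, hno⟩
  rintro ⟨i, j⟩
  simp only [rep, q_nQ, Sym2.map_mk]
  rfl

theorem step {r : ℕ} (hr : 2 ≤ r) (h : Good r) : Good (r + 1) := by
  obtain ⟨V, E, I, fV, fE, fI, ends, φ, n, hg, hn, hno⟩ := h
  exact good_of_rep hr hg hn (fun h => hno (not_hasPMs_rep hn h))

/-- The digon. -/
def dig : Fin 2 → Sym2 (Unit × Bool) := fun _ => s(((), false), ((), true))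

theorem dig_isRGraph : IsRGraph 2 dig := by
  have hb : ∀ X : Set (Unit × Bool), (boundary dig X).ncard =
      if ((((), false) : Unit × Bool) ∈ X ↔ (((), true) : Unit × Bool) ∈ X) then 0 else 2 := by
    intro X
    rw [ncard_eq, Fin.sum_univ_two]
    rw [ind_eq (show dig 0 = s(((), false), ((), true)) from rfl),
      ind_eq (show dig 1 = s(((), false), ((), true)) from rfl)]
    split_ifs <;> rfl
  refine ⟨?_, ?_, ?_⟩
  · intro e
    simp [dig]
  · rintro ⟨⟨⟩, b⟩
    rw [hb]
    rcases b with _ | _ <;> simp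
  · intro X hX
    rw [hb]
    rw [ncard_sum, Fintype.sum_prod_type] at hX
    simp only [Finset.univ_unique, Finset.sum_singleton, Fintype.sum_bool] at hX
    by_cases h1 : (((), false) : Unit × Bool) ∈ X <;>
      by_cases h2 : (((), true) : Unit × Bool) ∈ X <;> simp_all
    exact absurd hX (by decide)

theorem base : Good 3 := by
  apply good_of_rep (r := 2) le_rfl (ends := dig) (φ := Equiv.refl _) (n := fun _ => 0)
    dig_isRGraph
  · rintro ⟨⟩
    rfl
  · rintro ⟨F, hF, hd⟩
    have hd01 := hd 0 1 (by decide)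
    have l0 := local_of (hF 0) ()
    have l1 := local_of (hF 1) ()
    have hsub : ∀ e e' : {e : Fin 2 // ∀ i : Unit, e ≠ (fun _ => 0 : Unit → Fin 2) i}, e = e' := by
      rintro ⟨e, he⟩ ⟨e', he'⟩
      have h1 := he ()
      have h2 := he' ()
      apply Subtype.ext
      simp only at h1 h2 ⊢
      omega
    by_cases h0 : Ext dig (Equiv.refl (Unit × Bool)) (F 0) () false
    · by_cases h1 : Ext dig (Equiv.refl (Unit × Bool)) (F 1) () false
      · obtain ⟨e, he, -⟩ := h0
        obtain ⟨e', he', -⟩ := h1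
        rw [hsub e' e] at he'
        exact Set.disjoint_left.1 hd01 he he'
      · obtain ⟨j, hj, hj'⟩ := not_disjoint_TF l0 l1 h0 h1
        exact Set.disjoint_left.1 hd01 hj hj'
    · by_cases h1 : Ext dig (Equiv.refl (Unit × Bool)) (F 1) () false
      · obtain ⟨j, hj, hj'⟩ := not_disjoint_TF l1 l0 h1 h0
        exact Set.disjoint_left.1 hd01 hj' hj
      · obtain ⟨j, hj, hj'⟩ := not_disjoint_FF l0 l1 h0 h1
        exact Set.disjoint_left.1 hd01 hj hj'

/-- For every `r ≥ 3` there is an `r`-graph without two disjoint perfect matchings. -/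
theorem exists_poor {r : ℕ} (hr : 3 ≤ r) :
    ∃ (V E : Type) (_ : Finite V) (_ : Finite E) (ends : E → Sym2 V),
      IsRGraph r ends ∧ ¬ HasPMs ends 2 := by
  have : Good r := by
    induction r, hr using Nat.le_induction with
    | base => exact base
    | succ r hr ih => exact step (by omega) ih
  obtain ⟨V, E, I, fV, fE, fI, ends, φ, n, hg, hn, hno⟩ := this
  exact ⟨V, E, fV, fE, ends, hg, hno⟩

end RGraph.Gad
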