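import Pool.Agent.Work.MP_426d99_co.Cuts

open Finset Classical

namespace RGraph.Gad

/-- First end of the light edges: outer cycle `0 1 2 3 4`, inner cycle `5 7 9 6 8`. -/
def lu : Fin 10 → Fin 10 := ![0, 1, 2, 3, 4, 5, 7, 9, 6, 8]
/-- Second end of the light edges. -/
def lv : Fin 10 → Fin 10 := ![1, 2, 3, 4, 0, 7, 9, 6, 8, 5]
/-- First end of the heavy edges (spokes `1, 2, 3, 4`). -/
def hu : Fin 4 → Fin 10 := ![1, 2, 3, 4]
/-- Second end of the heavy edges. -/
def hv : Fin 4 → Fin 10 := ![6, 7, 8, 9]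
/-- First light edge at a vertex. -/
def lt1 : Fin 10 → Fin 10 := ![0, 1, 2, 3, 4, 5, 7, 5, 8, 6]
/-- Second light edge at a vertex. -/
def lt2 : Fin 10 → Fin 10 := ![4, 0, 1, 2, 3, 9, 8, 6, 9, 7]

/-- The gadget: the Petersen graph with the spoke `0 5` removed and the other spokes repeated
`w` times. -/
def q (w : ℕ) : Fin 10 ⊕ (Fin 4 × Fin w) → Sym2 (Fin 10)
  | Sum.inl a => s(lu a, lv a)
  | Sum.inr p => s(hu p.1, hv p.1)

/-- Number of light edges cut. -/
def LC (x : Fin 10 → Bool) : ℕ := ∑ a, if x (lu a) = x (lv a) then 0 else 1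
/-- Number of spokes cut. -/
def HC (x : Fin 10 → Bool) : ℕ := ∑ a, if x (hu a) = x (hv a) then 0 else 1
/-- Number of vertices. -/
def CC (x : Fin 10 → Bool) : ℕ := ∑ z, if x z = true then 1 else 0

def test1 (x : Fin 10 → Bool) : Bool :=
  if (CC x % 2 = 1) = (x 0 = x 5) then 2 ≤ LC x ∧ 1 ≤ HC x
  else (CC x % 2 = 1 → 2 ≤ LC x ∨ 2 ≤ HC x)

theorem test1_all : ∀ b0 b1 b2 b3 b4 b5 b6 b7 b8 b9 : Bool,
    test1 ![b0, b1, b2, b3, b4, b5, b6, b7, b8, b9] = true := by
  decide +kernel

theorem vec10 {α : Type} (x : Fin 10 → α) :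
    ![x 0, x 1, x 2, x 3, x 4, x 5, x 6, x 7, x 8, x 9] = x := by
  funext i
  fin_cases i <;> rfl

theorem test1_true (x : Fin 10 → Bool) : test1 x = true := by
  have h := test1_all (x 0) (x 1) (x 2) (x 3) (x 4) (x 5) (x 6) (x 7) (x 8) (x 9)
  rwa [vec10] at h

/-- Exactly one. -/
def one (a b c : Bool) : Bool := (a && !b && !c) || (!a && b && !c) || (!a && !b && c)

def valid (l : Fin 10 → Bool) (e0 e5 : Bool) : Bool :=
  one (l (lt1 0)) (l (lt2 0)) e0 && one (l (lt1 5)) (l (lt2 5)) e5 &&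
    (List.finRange 4).all (fun s => !(l (lt1 (hu s)) && l (lt2 (hu s))) &&
      !(l (lt1 (hv s)) && l (lt2 (hv s))) &&
      ((l (lt1 (hu s)) || l (lt2 (hu s))) == (l (lt1 (hv s)) || l (lt2 (hv s)))))

def listF : List (Fin 10 → Bool) :=
  [![false, false, true, false, true, false, true, false, false, true],
   ![false, true, false, false, true, true, false, true, false, false],
   ![true, false, false, true, false, false, false, true, false, true],
   ![true, false, true, false, false, true, false, false, true, false]]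

def listT : List (Fin 10 → Bool) :=
  [![false, false, false, false, false, false, false, false, false, false],
   ![false, true, false, true, false, false, true, false, true, false]]

def test2 (l : Fin 10 → Bool) (e0 e5 : Bool) : Bool :=
  if valid l e0 e5 = true then
    (e0 = e5 ∧ (if e0 = true then l ∈ listT else l ∈ listF)) else true

theorem test2_all : ∀ b0 b1 b2 b3 b4 b5 b6 b7 b8 b9 e0 e5 : Bool,
    test2 ![b0, b1, b2, b3, b4, b5, b6, b7, b8, b9] e0 e5 = true := by
  decide +kernel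

theorem classify {l : Fin 10 → Bool} {e0 e5 : Bool} (h : valid l e0 e5 = true) :
    e0 = e5 ∧ (if e0 = true then l ∈ listT else l ∈ listF) := by
  have h2 := test2_all (l 0) (l 1) (l 2) (l 3) (l 4) (l 5) (l 6) (l 7) (l 8) (l 9) e0 e5
  rw [vec10, test2, if_pos h] at h2
  exact of_decide_eq_true h2

/-- The heavy edge at spoke `s` is used. -/
def hb (l : Fin 10 → Bool) (s : Fin 4) : Bool := !(l (lt1 (hu s)) || l (lt2 (hu s)))

theorem pairFF : ∀ l ∈ listF, ∀ l' ∈ listF, ∃ a, l a = true ∧ l' a = true := by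
  decide +kernel

theorem pairTF : ∀ l ∈ listT, ∀ l' ∈ listF, (∃ a, l a = true ∧ l' a = true) ∨
    ∃ s, hb l s = true ∧ hb l' s = true := by
  decide +kernel

/-! ### The cuts of the gadget -/

/-- Characteristic function. -/
noncomputable def chi (X : Set (Fin 10)) : Fin 10 → Bool := fun z => decide (z ∈ X)

theorem chi_eq (X : Set (Fin 10)) (z z' : Fin 10) : chi X z = chi X z' ↔ (z ∈ X ↔ z' ∈ X) := by
  unfold chi
  rw [decide_eq_decide]

theorem cut_q (w : ℕ) (X : Set (Fin 10)) :
    (boundary (q w) X).ncard = LC (chi X) + w * HC (chi X) := by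
  rw [ncard_eq, Fintype.sum_sum_type, Fintype.sum_prod_type]
  congr 1
  · unfold LC
    apply Finset.sum_congr rfl
    intro a _
    rw [ind_eq (show q w (Sum.inl a) = s(lu a, lv a) from rfl)]
    simp only [chi_eq]
  · unfold HC
    rw [Finset.mul_sum]
    apply Finset.sum_congr rfl
    intro a _
    rw [Finset.sum_congr rfl (fun t _ => ind_eq (show q w (Sum.inr (a, t)) = s(hu a, hv a) from rfl) X)]
    simp only [chi_eq, Finset.sum_const, Finset.card_univ, Fintype.card_fin, smul_eq_mul]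

theorem card_chi (X : Set (Fin 10)) : X.ncard = CC (chi X) := by
  unfold CC chi
  rw [Set.ncard_eq_toFinset_card', ← Finset.card_filter]
  congr 1
  ext z
  simp

theorem q_mismatch {w : ℕ} {X : Set (Fin 10)}
    (h : (X.ncard % 2 = 1) = ((0 : Fin 10) ∈ X ↔ (5 : Fin 10) ∈ X)) :
    w + 2 ≤ (boundary (q w) X).ncard := by
  have ht := test1_true (chi X)
  unfold test1 at ht
  rw [card_chi] at h
  rw [if_pos (by rw [chi_eq]; exact h)] at ht
  have ht' := of_decide_eq_true ht
  rw [cut_q]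
  have : w * 1 ≤ w * HC (chi X) := Nat.mul_le_mul_left w ht'.2
  omega

theorem q_separated {w : ℕ} (hw : 1 ≤ w) {X : Set (Fin 10)} (hodd : X.ncard % 2 = 1)
    (h : ¬ ((0 : Fin 10) ∈ X ↔ (5 : Fin 10) ∈ X)) :
    2 ≤ (boundary (q w) X).ncard := by
  have ht := test1_true (chi X)
  unfold test1 at ht
  rw [card_chi] at hodd
  rw [if_neg (by rw [chi_eq]; simp [h, hodd])] at ht
  have ht' := of_decide_eq_true ht hodd
  rw [cut_q]
  rcases ht' with h' | h'
  · omega
  · have : 1 * 2 ≤ w * HC (chi X) := Nat.mul_le_mul hw h'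
    omega

theorem q_single (w : ℕ) (z : Fin 10) :
    (boundary (q w) {z}).ncard = 2 + (if z = 0 ∨ z = 5 then 0 else w) := by
  have hchi : chi {z} = fun y => decide (y = z) := by
    funext y
    simp [chi]
  rw [cut_q, hchi]
  have h1 : ∀ z : Fin 10, LC (fun y => decide (y = z)) = 2 := by decide +kernel
  have h2 : ∀ z : Fin 10, HC (fun y => decide (y = z)) = if z = 0 ∨ z = 5 then 0 else 1 := by
    decide +kernel
  rw [h1 z, h2 z]
  split_ifs <;> simp

theorem q_loopless (w : ℕ) (j : Fin 10 ⊕ (Fin 4 × Fin w)) : ¬ (q w j).IsDiag := by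
  rcases j with a | p
  · have h : ∀ a, lu a ≠ lv a := by decide
    simpa [q] using h a
  · have h : ∀ a, hu a ≠ hv a := by decide
    simpa [q] using h p.1

/-! ### Perfect matchings -/

theorem mem_light (w : ℕ) (z a : Fin 10) :
    z ∈ q w (Sum.inl a) ↔ a = lt1 z ∨ a = lt2 z := by
  have h : ∀ z a : Fin 10, (z = lu a ∨ z = lv a) ↔ (a = lt1 z ∨ a = lt2 z) := by decide +kernel
  simp only [q, Sym2.mem_iff]
  exact h z a

theorem mem_heavy (w : ℕ) (z : Fin 10) (p : Fin 4 × Fin w) :
    z ∈ q w (Sum.inr p) ↔ z = hu p.1 ∨ z = hv p.1 := by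
  simp only [q, Sym2.mem_iff]

end RGraph.Gad
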