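import Pool.Agent.Work.MP_426d99_co.Conn
import Pool.Agent.Work.MP_426d99_co.Exist

open Finset Classical

namespace RGraph

theorem inH_of {V E : Type} [Finite V] [Finite E] {r k : ℕ} {ends : E → Sym2 V}
    (h : InT r k ends)
    (hsmall : ∀ (V' E' : Type) [Finite V'] [Finite E'] (ends' : E' → Sym2 V'),
      IsRGraph r ends' → ¬ HasPMs ends' (k + 1) → Nat.card V ≤ Nat.card V') :
    InH r ends := by
  refine ⟨h.1, connected_of_inT h, ?_⟩
  intro V' E' _ _ ends' hr' hc
  apply hsmall V' E' ends' hr'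
  intro hk
  exact (piEq_iff.1 h.2.1).2 (hasPMs_colours h.1 hr' hc hk)

/-- `n` is the order of an `r`-graph without `k` disjoint perfect matchings. -/
def Low (r k n : ℕ) : Prop :=
  ∃ (V E : Type) (_ : Finite V) (_ : Finite E) (ends : E → Sym2 V),
    IsRGraph r ends ∧ ¬ HasPMs ends k ∧ Nat.card V = n

theorem main {r k : ℕ} (hk : 2 ≤ k) (hkr : k < r) :
    (∀ (V E : Type) [Finite V] [Finite E] (ends : E → Sym2 V), InT r k ends → InH r ends) ∨
    (∀ (V E : Type) [Finite V] [Finite E] (ends : E → Sym2 V), InT r (k - 1) ends →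
      InH r ends) := by
  by_contra hcon
  push Not at hcon
  obtain ⟨⟨V₁, E₁, fV₁, fE₁, ends₁, hT₁, hH₁⟩, ⟨V₂, E₂, fV₂, fE₂, ends₂, hT₂, hH₂⟩⟩ := hcon
  -- a smaller graph below `k`
  have h2 : ∃ n, Low r k n ∧ n < Nat.card V₂ := by
    by_contra hno
    apply hH₂
    apply inH_of hT₂
    intro V' E' _ _ ends' hr' hn'
    by_contra hlt
    refine hno ⟨Nat.card V', ⟨V', E', inferInstance, inferInstance, ends', hr', ?_, rfl⟩,
      by omega⟩
    rwa [show k - 1 + 1 = k by omega] at hn'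
  obtain ⟨n₂, hlow₂, hn₂⟩ := h2
  have hex : ∃ n, Low r k n := ⟨n₂, hlow₂⟩
  let m := Nat.find hex
  have hm : Low r k m := Nat.find_spec hex
  have hmin : ∀ n, Low r k n → m ≤ n := fun n hn => Nat.find_min' hex hn
  obtain ⟨V, E, fV, fE, ends, hr, hnot, hcard⟩ := hm
  obtain ⟨ends', hr', hcase⟩ := interpolation hr (by omega : 1 ≤ k) hkr hnot
  have hmn₂ : m ≤ n₂ := hmin _ hlow₂
  rcases hcase with hc | hc
  · -- `π = k` at order `m`
    have h1 : Nat.card V₁ ≤ m := by
      rw [← hcard]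
      exact hT₁.2.2 V E ends' hr' (piEq_iff.2 hc)
    apply hH₁
    apply inH_of hT₁
    intro V' E' _ _ ends'' hr'' hn''
    by_contra hlt
    by_cases hk' : HasPMs ends'' k
    · have := hT₁.2.2 V' E' ends'' hr'' (piEq_iff.2 ⟨hk', hn''⟩)
      omega
    · have := hmin (Nat.card V') ⟨V', E', inferInstance, inferInstance, ends'', hr'', hk', rfl⟩
      omega
  · have h1 : Nat.card V₂ ≤ m := by
      rw [← hcard]
      refine hT₂.2.2 V E ends' hr' (piEq_iff.2 ⟨hc.1, ?_⟩)
      rw [show k - 1 + 1 = k by omega]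
      exact hc.2
    omega

/-- If there is an `r`-graph with less than `k` disjoint perfect matchings, then one of
`𝒯(r, k)`, `𝒯(r, k - 1)` is nonempty and contained in `ℋ_r`. -/
theorem main' {r k : ℕ} (hk : 2 ≤ k) (hkr : k < r) (hex : ∃ n, Low r k n) :
    ∃ j, (j = k ∨ j = k - 1) ∧
      (∃ (V E : Type) (_ : Finite V) (_ : Finite E) (ends : E → Sym2 V), InT r j ends) ∧
      (∀ (V E : Type) [Finite V] [Finite E] (ends : E → Sym2 V), InT r j ends → InH r ends) := by
  let m := Nat.find hex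
  have hm : Low r k m := Nat.find_spec hex
  have hmin : ∀ n, Low r k n → m ≤ n := fun n hn => Nat.find_min' hex hn
  obtain ⟨V, E, fV, fE, ends, hr, hnot, hcard⟩ := hm
  obtain ⟨ends', hr', hcase⟩ := interpolation hr (by omega : 1 ≤ k) hkr hnot
  rcases hcase with hc | hc
  · -- is there a smaller one with `π = k`?
    let P : ℕ → Prop := fun n => ∃ (V E : Type) (_ : Finite V) (_ : Finite E)
      (ends : E → Sym2 V), IsRGraph r ends ∧ PiEq ends k ∧ Nat.card V = n
    have hP : ∃ n, P n := ⟨_, V, E, fV, fE, ends', hr', piEq_iff.2 hc, rfl⟩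
    obtain ⟨V₁, E₁, fV₁, fE₁, ends₁, hr₁, hpi₁, hc₁⟩ := Nat.find_spec hP
    have hle : Nat.find hP ≤ m := by
      rw [← hcard]
      exact Nat.find_min' hP ⟨V, E, fV, fE, ends', hr', piEq_iff.2 hc, rfl⟩
    refine ⟨k, Or.inl rfl, ⟨V₁, E₁, fV₁, fE₁, ends₁, hr₁, hpi₁, ?_⟩, ?_⟩
    · intro V' E' _ _ ends'' h1 h2
      rw [hc₁]
      exact Nat.find_min' hP ⟨V', E', inferInstance, inferInstance, ends'', h1, h2, rfl⟩
    · intro V₃ E₃ _ _ ends₃ hT₃
      apply inH_of hT₃
      intro V' E' _ _ ends'' hr'' hn''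
      have h4 : Nat.card V₃ ≤ m := by
        rw [← hcard]
        exact hT₃.2.2 V E ends' hr' (piEq_iff.2 hc)
      by_contra hlt
      by_cases hk' : HasPMs ends'' k
      · have := hT₃.2.2 V' E' ends'' hr'' (piEq_iff.2 ⟨hk', hn''⟩)
        omega
      · have := hmin (Nat.card V') ⟨V', E', inferInstance, inferInstance, ends'', hr'', hk', rfl⟩
        omega
  · have hc' : PiEq ends' (k - 1) := by
      rw [piEq_iff, show k - 1 + 1 = k by omega]
      exact hc
    have hbelow : ∀ (V' E' : Type) [Finite V'] [Finite E'] (ends' : E' → Sym2 V'),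
        IsRGraph r ends' → ¬ HasPMs ends' k → m ≤ Nat.card V' := by
      intro V' E' _ _ ends'' hr'' hn''
      exact hmin _ ⟨V', E', inferInstance, inferInstance, ends'', hr'', hn'', rfl⟩
    refine ⟨k - 1, Or.inr rfl, ⟨V, E, fV, fE, ends', hr', hc', ?_⟩, ?_⟩
    · intro V' E' _ _ ends'' h1 h2
      rw [hcard]
      apply hbelow V' E' ends'' h1
      have := (piEq_iff.1 h2).2
      rwa [show k - 1 + 1 = k by omega] at this
    · intro V₃ E₃ _ _ ends₃ hT₃
      apply inH_of hT₃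
      intro V' E' _ _ ends'' hr'' hn''
      rw [show k - 1 + 1 = k by omega] at hn''
      have h4 : Nat.card V₃ ≤ m := by
        rw [← hcard]
        exact hT₃.2.2 V E ends' hr' hc'
      exact h4.trans (hbelow V' E' ends'' hr'' hn'')

theorem exists_low {r k : ℕ} (hk : 2 ≤ k) (hkr : k < r) : ∃ n, Low r k n := by
  obtain ⟨V, E, fV, fE, ends, hr, hno⟩ := Gad.exists_poor (r := r) (by omega)
  exact ⟨Nat.card V, V, E, fV, fE, ends, hr, fun h => hno (hasPMs_mono hk h), rfl⟩

end RGraph
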