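import Pool.Agent.Work.MP_426d99_co.Replace

open Finset Classical

namespace RGraph.Gad

variable {V E I : Type}

/-- The attachment of the old vertices. -/
def io (φ : V ≃ I × Bool) (v : V) : I × Fin 10 := ((φ v).1, if (φ v).2 then 5 else 0)

/-- The new graph: the edges `n i` are replaced by gadgets. -/
def rep (ends : E → Sym2 V) (φ : V ≃ I × Bool) (n : I → E) (w : ℕ) :
    {e : E // ∀ i, e ≠ n i} ⊕ (I × (Fin 10 ⊕ (Fin 4 × Fin w))) → Sym2 (I × Fin 10)
  | Sum.inl e => (ends e.1).map (io φ)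
  | Sum.inr p => (q w p.2).map (fun z => (p.1, z))

/-- The part of a set in a gadget. -/
def part (X : Set (I × Fin 10)) (i : I) : Set (Fin 10) := {z | (i, z) ∈ X}

theorem ind_inl (ends : E → Sym2 V) (φ : V ≃ I × Bool) (n : I → E) (w : ℕ)
    (X : Set (I × Fin 10)) (e : {e : E // ∀ i, e ≠ n i}) :
    ind (rep ends φ n w) X (Sum.inl e) = ind ends (io φ ⁻¹' X) e.1 := by
  obtain ⟨u, v, huv⟩ := exists_ends ends e.1
  have : rep ends φ n w (Sum.inl e) = s(io φ u, io φ v) := by
    simp [rep, huv]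
  rw [ind_eq this, ind_eq huv]
  simp only [Set.mem_preimage]

theorem ind_inr (ends : E → Sym2 V) (φ : V ≃ I × Bool) (n : I → E) (w : ℕ)
    (X : Set (I × Fin 10)) (i : I) (j : Fin 10 ⊕ (Fin 4 × Fin w)) :
    ind (rep ends φ n w) X (Sum.inr (i, j)) = ind (q w) (part X i) j := by
  obtain ⟨u, v, huv⟩ := exists_ends (q w) j
  have : rep ends φ n w (Sum.inr (i, j)) = s((i, u), (i, v)) := by
    simp [rep, huv]
  rw [ind_eq this, ind_eq huv]
  rfl

theorem cut_rep [Fintype E] [Fintype I] (ends : E → Sym2 V) (φ : V ≃ I × Bool) (n : I → E)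
    (w : ℕ) (X : Set (I × Fin 10)) :
    (boundary (rep ends φ n w) X).ncard =
      ∑ e : {e : E // ∀ i, e ≠ n i}, ind ends (io φ ⁻¹' X) e.1 +
        ∑ i, (boundary (q w) (part X i)).ncard := by
  rw [ncard_eq, Fintype.sum_sum_type, Fintype.sum_prod_type]
  congr 1
  · exact Finset.sum_congr rfl (fun e _ => ind_inl ends φ n w X e)
  · apply Finset.sum_congr rfl
    intro i _
    rw [ncard_eq]
    exact Finset.sum_congr rfl (fun j _ => ind_inr ends φ n w X i j)

theorem split [Fintype E] [Fintype I] {n : I → E} (hinj : Function.Injective n) (g : E → ℕ) :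
    ∑ e : {e : E // ∀ i, e ≠ n i}, g e.1 + ∑ i, g (n i) = ∑ e, g e := by
  have h1 : ∑ e : {e : E // ∀ i, e ≠ n i}, g e.1 =
      ∑ e ∈ univ.filter (fun e => ∀ i, e ≠ n i), g e := by
    rw [Finset.sum_subtype (univ.filter (fun e => ∀ i, e ≠ n i)) (p := fun e => ∀ i, e ≠ n i)
      (by simp)]
  have h2 : ∑ i, g (n i) = ∑ e ∈ univ.filter (fun e => ¬ ∀ i, e ≠ n i), g e := by
    rw [← Finset.sum_image (s := univ) (g := n) (f := g) hinj.injOn]
    congr 1
    ext e
    simp [eq_comm]
  rw [h1, h2, Finset.sum_filter_add_sum_filter_not]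

theorem ncard_sum {α : Type} [Fintype α] (S : Set α) :
    S.ncard = ∑ a, if a ∈ S then 1 else 0 := by
  rw [Set.ncard_eq_toFinset_card', ← Finset.card_filter]
  congr 1
  ext z
  simp

theorem card_part [Fintype I] (X : Set (I × Fin 10)) : X.ncard = ∑ i, (part X i).ncard := by
  rw [ncard_sum, Fintype.sum_prod_type]
  apply Finset.sum_congr rfl
  intro i _
  rw [ncard_sum]
  rfl

section

variable {ends : E → Sym2 V} {φ : V ≃ I × Bool} {n : I → E}

theorem io_inj : Function.Injective (io φ) := by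
  intro u v huv
  apply φ.injective
  unfold io at huv
  rw [Prod.mk.injEq] at huv
  obtain ⟨h2, h3⟩ := huv
  refine Prod.ext h2 ?_
  rcases hb1 : (φ u).2 <;> rcases hb2 : (φ v).2 <;> simp_all

theorem io_false (i : I) : io φ (φ.symm (i, false)) = (i, 0) := by simp [io]

theorem io_true (i : I) : io φ (φ.symm (i, true)) = (i, 5) := by simp [io]

theorem card_pre [Fintype V] [Fintype I] (φ : V ≃ I × Bool) (X : Set (I × Fin 10)) :
    (io φ ⁻¹' X).ncard = ∑ i, ((if ((i, 5) : I × Fin 10) ∈ X then 1 else 0) +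
      (if ((i, 0) : I × Fin 10) ∈ X then 1 else 0)) := by
  rw [ncard_sum, ← Equiv.sum_comp φ.symm, Fintype.sum_prod_type]
  apply Finset.sum_congr rfl
  intro i _
  rw [Fintype.sum_bool]
  simp only [Set.mem_preimage, io_true, io_false]

theorem n_inj (hn : ∀ i, ends (n i) = s(φ.symm (i, false), φ.symm (i, true))) :
    Function.Injective n := by
  intro i j hij
  have h := hn i
  rw [hij, hn j] at h
  rcases Sym2.eq_iff.1 h with ⟨h', -⟩ | ⟨h', -⟩
  · simpa using (φ.symm.injective h').symm
  · simpa using (φ.symm.injective h').symm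

theorem ind_n (hn : ∀ i, ends (n i) = s(φ.symm (i, false), φ.symm (i, true)))
    (X : Set (I × Fin 10)) (i : I) :
    ind ends (io φ ⁻¹' X) (n i) =
      if (((i, 0) : I × Fin 10) ∈ X ↔ ((i, 5) : I × Fin 10) ∈ X) then 0 else 1 := by
  rw [ind_eq (hn i)]
  simp only [Set.mem_preimage, io_true, io_false]

theorem rep_isRGraph [Finite V] [Finite E] [Finite I] {r : ℕ} (hr : 2 ≤ r)
    (h : IsRGraph r ends)
    (hn : ∀ i, ends (n i) = s(φ.symm (i, false), φ.symm (i, true))) :
    IsRGraph (r + 1) (rep ends φ n (r - 1)) := by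
  have := Fintype.ofFinite V
  have := Fintype.ofFinite E
  have := Fintype.ofFinite I
  have hinj := n_inj hn
  have hcut := cut_rep ends φ n (r - 1)
  have hsplit : ∀ X : Set (I × Fin 10),
      ∑ e : {e : E // ∀ i, e ≠ n i}, ind ends (io φ ⁻¹' X) e.1 +
        ∑ i, ind ends (io φ ⁻¹' X) (n i) = (boundary ends (io φ ⁻¹' X)).ncard := by
    intro X
    rw [split hinj, ← ncard_eq]
  refine ⟨?_, ?_, ?_⟩
  · rintro (e | ⟨i, j⟩)
    · obtain ⟨u, v, huv⟩ := exists_ends ends e.1
      have h1 : rep ends φ n (r - 1) (Sum.inl e) = s(io φ u, io φ v) := by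
        simp [rep, huv]
      rw [h1]
      have huv' := ne_of_ends h huv
      simp only [Sym2.isDiag_iff_proj_eq]
      intro hio
      exact huv' (io_inj hio)
    · obtain ⟨u, v, huv⟩ := exists_ends (q (r - 1)) j
      have h1 : rep ends φ n (r - 1) (Sum.inr (i, j)) = s((i, u), (i, v)) := by
        simp [rep, huv]
      rw [h1]
      simp only [Sym2.isDiag_iff_proj_eq, Prod.mk.injEq, true_and]
      intro huv'
      apply q_loopless (r - 1) j
      rw [huv, huv']
      simp
  · rintro ⟨i₀, z⟩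
    have hc := hcut {(i₀, z)}
    have hs := hsplit {(i₀, z)}
    have hpart : ∑ i, (boundary (q (r - 1)) (part {((i₀, z) : I × Fin 10)} i)).ncard =
        (boundary (q (r - 1)) {z}).ncard := by
      rw [Finset.sum_eq_single i₀]
      · congr 2
        ext y
        simp [part]
      · intro i _ hi
        have : part {((i₀, z) : I × Fin 10)} i = ∅ := by
          ext y
          simp [part, hi]
        rw [this]
        have : boundary (q (r - 1)) (∅ : Set (Fin 10)) = ∅ := by
          ext e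
          simp [boundary]
        rw [this, Set.ncard_empty]
      · simp
    rw [hpart, q_single] at hc
    by_cases hz0 : z = 0
    · subst hz0
      have hpre : io φ ⁻¹' {((i₀, 0) : I × Fin 10)} = {φ.symm (i₀, false)} := by
        ext v
        simp only [Set.mem_preimage, Set.mem_singleton_iff, io, Prod.mk.injEq]
        rw [Equiv.eq_symm_apply]
        constructor
        · rintro ⟨h1, h2⟩
          refine Prod.ext h1 ?_
          rcases hb : (φ v).2 <;> simp_all
        · intro h'
          rw [h']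
          simp
      have hone : ∑ i, ind ends (io φ ⁻¹' {((i₀, 0) : I × Fin 10)}) (n i) = 1 := by
        rw [Finset.sum_eq_single i₀]
        · rw [ind_n hn]
          simp
        · intro i _ hi
          rw [ind_n hn]
          simp [hi]
        · simp
      rw [hone, hpre, h.regular] at hs
      rw [hpre] at hc
      rw [hc]
      simp only [true_or, if_true]
      omega
    · by_cases hz5 : z = 5
      · subst hz5
        have hpre : io φ ⁻¹' {((i₀, 5) : I × Fin 10)} = {φ.symm (i₀, true)} := by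
          ext v
          simp only [Set.mem_preimage, Set.mem_singleton_iff, io, Prod.mk.injEq]
          rw [Equiv.eq_symm_apply]
          constructor
          · rintro ⟨h1, h2⟩
            refine Prod.ext h1 ?_
            rcases hb : (φ v).2 <;> simp_all
          · intro h'
            rw [h']
            simp
        have hone : ∑ i, ind ends (io φ ⁻¹' {((i₀, 5) : I × Fin 10)}) (n i) = 1 := by
          rw [Finset.sum_eq_single i₀]
          · rw [ind_n hn]
            simp
          · intro i _ hi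
            rw [ind_n hn]
            simp [hi]
          · simp
        rw [hone, hpre, h.regular] at hs
        rw [hpre] at hc
        rw [hc]
        simp only [or_true, if_true]
        omega
      · have hpre : io φ ⁻¹' {((i₀, z) : I × Fin 10)} = ∅ := by
          ext v
          simp only [Set.mem_preimage, Set.mem_singleton_iff, io, Prod.mk.injEq,
            Set.mem_empty_iff_false, iff_false, not_and]
          intro _ h2
          rcases hb : (φ v).2 <;> simp_all
        have hemp : boundary ends (∅ : Set V) = ∅ := by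
          ext e
          simp [boundary]
        rw [hpre] at hs hc
        rw [hemp, Set.ncard_empty] at hs
        rw [hc]
        simp only [hz0, hz5, or_self, if_false]
        omega
  · intro X hX
    rw [hcut X]
    by_cases hmis : ∃ i, ((part X i).ncard % 2 = 1) =
        ((0 : Fin 10) ∈ part X i ↔ (5 : Fin 10) ∈ part X i)
    · obtain ⟨i, hi⟩ := hmis
      have h1 := q_mismatch (w := r - 1) hi
      have h2 : (boundary (q (r - 1)) (part X i)).ncard ≤
          ∑ i, (boundary (q (r - 1)) (part X i)).ncard :=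
        Finset.single_le_sum (f := fun i => (boundary (q (r - 1)) (part X i)).ncard)
          (fun _ _ => Nat.zero_le _) (Finset.mem_univ i)
      omega
    · push Not at hmis
      have hm : ∀ i, (part X i).ncard % 2 =
          (if (((i, 0) : I × Fin 10) ∈ X ↔ ((i, 5) : I × Fin 10) ∈ X) then 0 else 1) % 2 := by
        intro i
        have h1 := hmis i
        have h0 : ((0 : Fin 10) ∈ part X i ↔ (5 : Fin 10) ∈ part X i) =
          (((i, 0) : I × Fin 10) ∈ X ↔ ((i, 5) : I × Fin 10) ∈ X) := rfl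
        rw [h0] at h1
        by_cases h2 : (((i, 0) : I × Fin 10) ∈ X ↔ ((i, 5) : I × Fin 10) ∈ X)
        · rw [if_pos h2]
          have : ¬ (part X i).ncard % 2 = 1 := fun h3 => h1 (by simp [h2, h3])
          omega
        · rw [if_neg h2]
          by_contra h3
          apply h1
          simp only [h2, eq_iff_iff, iff_false]
          omega
      set c : ℕ := ∑ i, (if (((i, 0) : I × Fin 10) ∈ X ↔ ((i, 5) : I × Fin 10) ∈ X)
        then 0 else 1) with hc
      have hXc : X.ncard % 2 = c % 2 := by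
        rw [card_part X, hc, Finset.sum_nat_mod, Finset.sum_nat_mod (f := fun i =>
          (if (((i, 0) : I × Fin 10) ∈ X ↔ ((i, 5) : I × Fin 10) ∈ X) then 0 else 1))]
        congr 1
        exact Finset.sum_congr rfl (fun i _ => hm i)
      have hpre : (io φ ⁻¹' X).ncard % 2 = c % 2 := by
        rw [card_pre, hc, Finset.sum_nat_mod, Finset.sum_nat_mod (f := fun i =>
          (if (((i, 0) : I × Fin 10) ∈ X ↔ ((i, 5) : I × Fin 10) ∈ X) then 0 else 1))]
        congr 1
        apply Finset.sum_congr rfl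
        intro i _
        by_cases h1 : ((i, 0) : I × Fin 10) ∈ X <;> by_cases h2 : ((i, 5) : I × Fin 10) ∈ X <;>
          simp [h1, h2]
      have hodd : Odd (io φ ⁻¹' X).ncard := by
        rw [Nat.odd_iff] at *
        omega
      have h1 := h.odd _ hodd
      have h2 := hsplit X
      simp only [ind_n hn] at h2
      rw [← hc] at h2
      have h3 : c * 2 ≤ ∑ i, (boundary (q (r - 1)) (part X i)).ncard := by
        rw [hc, Finset.sum_mul]
        apply Finset.sum_le_sum
        intro i _
        by_cases h4 : (((i, 0) : I × Fin 10) ∈ X ↔ ((i, 5) : I × Fin 10) ∈ X)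
        · simp [h4]
        · rw [if_neg h4]
          have h5 := hm i
          rw [if_neg h4] at h5
          have := q_separated (w := r - 1) (by omega) (X := part X i) (by omega) h4
          omega
      rw [Nat.odd_iff] at hX
      omega

/-! ### Perfect matchings of the new graph -/

theorem mem_inl {w : ℕ} {e : {e : E // ∀ i, e ≠ n i}} {v : V} :
    io φ v ∈ rep ends φ n w (Sum.inl e) ↔ v ∈ ends e.1 := by
  have hio : Function.Injective (io φ) := io_inj
  simp only [rep, Sym2.mem_map]
  constructor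
  · rintro ⟨a, ha, hav⟩
    rwa [← hio hav]
  · intro h
    exact ⟨v, h, rfl⟩

theorem mem_inl_range {w : ℕ} {e : {e : E // ∀ i, e ≠ n i}} {p : I × Fin 10}
    (hp : p ∈ rep ends φ n w (Sum.inl e)) : ∃ v, io φ v = p := by
  simp only [rep, Sym2.mem_map] at hp
  obtain ⟨a, -, ha⟩ := hp
  exact ⟨a, ha⟩

theorem mem_inr {w : ℕ} {i i' : I} {j : Fin 10 ⊕ (Fin 4 × Fin w)} {z : Fin 10} :
    ((i', z) : I × Fin 10) ∈ rep ends φ n w (Sum.inr (i, j)) ↔ i' = i ∧ z ∈ q w j := by
  simp only [rep, Sym2.mem_map]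
  constructor
  · rintro ⟨a, ha, hav⟩
    simp only [Prod.mk.injEq] at hav
    exact ⟨hav.1.symm, hav.2 ▸ ha⟩
  · rintro ⟨rfl, h⟩
    exact ⟨z, h, rfl⟩

/-- The old vertex `(i, b)` is matched outside of the gadget. -/
def Ext (ends : E → Sym2 V) (φ : V ≃ I × Bool) {n : I → E} {w : ℕ}
    (F : Set ({e : E // ∀ i, e ≠ n i} ⊕ (I × (Fin 10 ⊕ (Fin 4 × Fin w))))) (i : I) (b : Bool) :
    Prop :=
  ∃ e, Sum.inl e ∈ F ∧ φ.symm (i, b) ∈ ends e.1

theorem local_of {w : ℕ} {F : Set ({e : E // ∀ i, e ≠ n i} ⊕ (I × (Fin 10 ⊕ (Fin 4 × Fin w))))}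
    (hF : IsPM (rep ends φ n w) F) (i : I) :
    LocalPM w {j | Sum.inr (i, j) ∈ F} (Ext ends φ F i false) (Ext ends φ F i true) := by
  have hin : ∀ z, (∀ e, Sum.inl e ∈ F → ((i, z) : I × Fin 10) ∉ rep ends φ n w (Sum.inl e)) →
      ∃! j, j ∈ {j | Sum.inr (i, j) ∈ F} ∧ z ∈ q w j := by
    intro z hno
    obtain ⟨f, ⟨hf, hfz⟩, huniq⟩ := hF (i, z)
    rcases f with e | ⟨i', j⟩
    · exact absurd hfz (hno e hf)
    · rw [mem_inr] at hfz
      obtain ⟨rfl, hz⟩ := hfz
      refine ⟨j, ⟨hf, hz⟩, ?_⟩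
      rintro j' ⟨hj', hz'⟩
      have := huniq _ ⟨hj', mem_inr.2 ⟨rfl, hz'⟩⟩
      simpa using this
  have hout : ∀ z e, Sum.inl e ∈ F → ((i, z) : I × Fin 10) ∈ rep ends φ n w (Sum.inl e) →
      ∀ j ∈ {j | Sum.inr (i, j) ∈ F}, z ∉ q w j := by
    intro z e he hez j hj hz
    have h1 := (hF (i, z)).unique ⟨he, hez⟩ ⟨hj, mem_inr.2 ⟨rfl, hz⟩⟩
    exact Sum.inl_ne_inr h1
  refine ⟨?_, ?_, ?_, ?_, ?_⟩
  · intro z hz0 hz5
    apply hin
    intro e _ hez
    obtain ⟨v, hv⟩ := mem_inl_range hez
    have := congrArg Prod.snd hv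
    simp only [io] at this
    rcases hb : (φ v).2 <;> simp_all
  · rintro ⟨e, he, hev⟩
    apply hout 0 e he
    rw [← io_false (φ := φ), mem_inl]
    exact hev
  · intro hno
    apply hin
    intro e he hez
    apply hno
    rw [← io_false (φ := φ), mem_inl] at hez
    exact ⟨e, he, hez⟩
  · rintro ⟨e, he, hev⟩
    apply hout 5 e he
    rw [← io_true (φ := φ), mem_inl]
    exact hev
  · intro hno
    apply hin
    intro e he hez
    apply hno
    rw [← io_true (φ := φ), mem_inl] at hez
    exact ⟨e, he, hez⟩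

theorem not_hasPMs_rep (hn : ∀ i, ends (n i) = s(φ.symm (i, false), φ.symm (i, true)))
    {w : ℕ} (h : HasPMs (rep ends φ n w) 2) : HasPMs ends 2 := by
  obtain ⟨F, hF, hd⟩ := h
  refine ⟨fun k => {e | (∃ h : ∀ i, e ≠ n i, Sum.inl ⟨e, h⟩ ∈ F k) ∨
    ∃ i, e = n i ∧ ¬ Ext ends φ (F k) i false}, ?_, ?_⟩
  · intro k v
    obtain ⟨⟨i, b⟩, rfl⟩ : ∃ p, v = φ.symm p := ⟨φ v, by simp⟩
    have hloc := local_iff (local_of (hF k) i)
    have hb : ∀ b, Ext ends φ (F k) i b ↔ Ext ends φ (F k) i false := by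
      intro b
      rcases b with _ | _
      · exact Iff.rfl
      · exact hloc.symm
    have hnv : ∀ i', φ.symm (i, b) ∈ ends (n i') ↔ i' = i := by
      intro i'
      rw [hn, Sym2.mem_iff, φ.symm.injective.eq_iff, φ.symm.injective.eq_iff]
      rcases b with _ | _ <;> simp [eq_comm]
    by_cases hE : Ext ends φ (F k) i b
    · obtain ⟨e, he, hev⟩ := hE
      refine ⟨e.1, ⟨Or.inl ⟨e.2, he⟩, hev⟩, ?_⟩
      rintro e' ⟨⟨h', he'⟩ | ⟨i', rfl, hi'⟩, hev'⟩
      · have h1 : Sum.inl ⟨e', h'⟩ = (Sum.inl e : {e : E // ∀ i, e ≠ n i} ⊕ _) :=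
          (hF k (io φ (φ.symm (i, b)))).unique ⟨he', mem_inl.2 hev'⟩ ⟨he, mem_inl.2 hev⟩
        exact congrArg Subtype.val (Sum.inl_injective h1)
      · rw [hnv] at hev'
        subst hev'
        exact absurd ((hb b).1 ⟨e, he, hev⟩) hi'
    · refine ⟨n i, ⟨Or.inr ⟨i, rfl, fun h' => hE ((hb b).2 h')⟩, (hnv i).2 rfl⟩, ?_⟩
      rintro e' ⟨⟨h', he'⟩ | ⟨i', rfl, hi'⟩, hev'⟩
      · exact absurd ⟨⟨e', h'⟩, he', hev'⟩ hE
      · rw [hnv] at hev'
        rw [hev']
  · intro k k' hkk
    rw [Set.disjoint_left]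
    rintro e (⟨h1, h2⟩ | ⟨i, rfl, hi⟩) (⟨h1', h2'⟩ | ⟨i', hi1, hi'⟩)
    · exact Set.disjoint_left.1 (hd k k' hkk) h2 h2'
    · exact h1 i' hi1
    · exact h1' i rfl
    · have := n_inj hn hi1
      subst this
      obtain ⟨j, hj, hj'⟩ := not_disjoint_FF (local_of (hF k) i) (local_of (hF k') i) hi hi'
      exact Set.disjoint_left.1 (hd k k' hkk) hj hj'

end

end RGraph.Gad
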