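import Pool.Agent.Work.MP_426d99_co.Switch

open Finset Classical

namespace RGraph

variable {V E : Type}

/-- A fixed point free involution on a finite type of even cardinality. -/
theorem exists_pairing [Finite V] (hev : Even (Nat.card V)) :
    ∃ (m : ℕ), Nonempty (V ≃ Fin m × Bool) := by
  obtain ⟨m, hm⟩ := hev
  have := Fintype.ofFinite V
  refine ⟨m, ⟨Fintype.equivOfCardEq ?_⟩⟩
  rw [Fintype.card_prod, Fintype.card_fin, Fintype.card_bool, ← Nat.card_eq_fintype_card, hm]
  ring

/-- The partner. -/
def partner {m : ℕ} (φ : V ≃ Fin m × Bool) (v : V) : V := φ.symm ((φ v).1, !(φ v).2)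

theorem partner_partner {m : ℕ} (φ : V ≃ Fin m × Bool) (v : V) : partner φ (partner φ v) = v := by
  simp [partner]

theorem partner_ne {m : ℕ} (φ : V ≃ Fin m × Bool) (v : V) : v ≠ partner φ v := by
  intro h
  have := congrArg (fun x => (φ x).2) h
  simp [partner] at this

/-- The edges joining a vertex to its partner. -/
def good {m : ℕ} (φ : V ≃ Fin m × Bool) (ends : E → Sym2 V) : Set E :=
  {e | ∃ v, ends e = s(v, partner φ v)}

/-- If every edge joins a vertex to its partner, there are `r` disjoint perfect matchings. -/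
theorem hasPMs_of_good [Finite V] [Finite E] {r : ℕ} {ends : E → Sym2 V} (h : IsRGraph r ends)
    {m : ℕ} (φ : V ≃ Fin m × Bool) (hg : good φ ends = Set.univ) : HasPMs ends r := by
  -- the class of the index `p`
  let x : Fin m → V := fun p => φ.symm (p, false)
  have hxp : ∀ p, partner φ (x p) = φ.symm (p, true) := by
    intro p
    simp [partner, x]
  have hends : ∀ e, ∃ p, ends e = s(x p, partner φ (x p)) := by
    intro e
    have he : e ∈ good φ ends := by rw [hg]; trivial
    obtain ⟨v, hv⟩ := he
    refine ⟨(φ v).1, ?_⟩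
    rw [hxp, hv]
    rcases hb : (φ v).2 with _ | _
    · have h1 : x (φ v).1 = v := by
        simp only [x]
        rw [← hb]
        simp
      have h2 : φ.symm ((φ v).1, true) = partner φ v := by
        simp [partner, hb]
      rw [h1, h2]
    · have h1 : x (φ v).1 = partner φ v := by
        simp [x, partner, hb]
      have h2 : φ.symm ((φ v).1, true) = v := by
        rw [← hb]
        simp
      rw [h1, h2, Sym2.eq_swap]
  have hcls : ∀ p, {e | ends e = s(x p, partner φ (x p))} = boundary ends {x p} := by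
    intro p
    ext e
    constructor
    · intro he
      exact ⟨x p, rfl, partner φ (x p), fun h' => partner_ne φ _ (by simpa using h'.symm), he⟩
    · rintro ⟨u, hu, y, hy, huy⟩
      obtain rfl : u = x p := by simpa using hu
      obtain ⟨q, hq⟩ := hends e
      have : x p ∈ ends e := by rw [huy]; simp
      rw [hq, Sym2.mem_iff] at this
      have hpq : p = q := by
        rcases this with h' | h'
        · have := congrArg (fun z => (φ z).1) h'
          simpa [x] using this
        · rw [hxp] at h'
          have := congrArg (fun z => (φ z).1) h'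
          simpa [x] using this
      rw [hpq]
      exact hq
  have hcard : ∀ p, Nat.card {e | ends e = s(x p, partner φ (x p))} = r := by
    intro p
    rw [hcls p]
    exact h.regular (x p)
  have hequiv : ∀ p, Nonempty ({e | ends e = s(x p, partner φ (x p))} ≃ Fin r) := by
    intro p
    have := Fintype.ofFinite {e | ends e = s(x p, partner φ (x p))}
    refine ⟨Fintype.equivOfCardEq ?_⟩
    rw [← Nat.card_eq_fintype_card, hcard p, Fintype.card_fin]
  refine ⟨fun i => {e | ∃ p, ∃ he : ends e = s(x p, partner φ (x p)), (hequiv p).some ⟨e, he⟩ = i},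
    ?_, ?_⟩
  · intro i v
    have hv : ∀ p, v ∈ s(x p, partner φ (x p)) ↔ p = (φ v).1 := by
      intro p
      rw [hxp, Sym2.mem_iff]
      constructor
      · rintro (h' | h')
        · rw [h']; simp [x]
        · rw [h']; simp
      · rintro rfl
        rcases hb : (φ v).2 with _ | _
        · left
          simp only [x]
          rw [← hb]
          simp
        · right
          rw [← hb]
          simp
    let p := (φ v).1
    let e := ((hequiv p).some.symm i)
    refine ⟨e.1, ⟨⟨p, e.2, by simp [e]⟩, ?_⟩, ?_⟩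
    · have := e.2
      simp only [Set.mem_setOf_eq] at this
      rw [this, hv]
    · rintro e' ⟨⟨q, hq, hqi⟩, hve'⟩
      rw [hq, hv] at hve'
      subst hve'
      have : (⟨e', hq⟩ : {e | ends e = s(x p, partner φ (x p))}) = e := by
        apply (hequiv p).some.injective
        refine Eq.trans hqi ?_
        simp [e]
      exact congrArg Subtype.val this
  · intro i j hij
    rw [Set.disjoint_left]
    rintro e ⟨p, hp, hpi⟩ ⟨q, hq, hqj⟩
    apply hij
    have hpq : p = q := by
      have := hp.symm.trans hq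
      rw [hxp, hxp] at this
      rcases Sym2.eq_iff.1 this with ⟨h', -⟩ | ⟨h', -⟩
      · have := congrArg (fun z => (φ z).1) h'
        simpa [x] using this
      · have := congrArg (fun z => (φ z).1) h'
        simpa [x] using this
    subst hpq
    rw [← hpi, ← hqj]

/-- If not all edges are good there is a vertex whose multiplicity with its partner is `< r`. -/
theorem exists_deficient [Finite V] [Finite E] {r : ℕ} {ends : E → Sym2 V}
    (h : IsRGraph r ends) {m : ℕ} (φ : V ≃ Fin m × Bool) (hg : good φ ends ≠ Set.univ) :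
    ∃ a, {e | ends e = s(a, partner φ a)}.ncard < r := by
  obtain ⟨e, he⟩ := (Set.ne_univ_iff_exists_notMem _).1 hg
  obtain ⟨u, v, huv⟩ := exists_ends ends e
  refine ⟨u, ?_⟩
  have hsub : {e | ends e = s(u, partner φ u)} ⊂ boundary ends {u} := by
    refine ⟨?_, fun hsup => ?_⟩
    · intro e' he'
      exact ⟨u, rfl, partner φ u, fun h' => partner_ne φ _ (by simpa using h'.symm), he'⟩
    · have h1 : e ∈ boundary ends {u} := by
        refine ⟨u, rfl, v, ?_, huv⟩
        intro h'
        exact ne_of_ends h huv (by simpa using h'.symm)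
      exact he ⟨u, hsup h1⟩
  have := Set.ncard_lt_ncard hsub (Set.toFinite _)
  rwa [h.regular u] at this

theorem good_sw [Finite V] [Finite E] {r : ℕ} {ends : E → Sym2 V} (h : IsRGraph r ends)
    {m : ℕ} (φ : V ≃ Fin m × Bool) {e₁ e₂ : E} {a b d : V}
    (h1 : ends e₁ = s(a, b)) (h2 : ends e₂ = s(partner φ a, d)) (hb : b ≠ partner φ a)
    (hd : d ≠ a) :
    (good φ ends).ncard < (good φ (sw ends e₁ e₂ a b (partner φ a) d)).ncard := by
  have hne : e₁ ≠ e₂ := by
    rintro rfl
    rw [h1] at h2
    rcases Sym2.eq_iff.1 h2 with ⟨h', -⟩ | ⟨h', -⟩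
    · exact partner_ne φ a h'
    · exact hd h'.symm
  have hn1 : e₁ ∉ good φ ends := by
    rintro ⟨v, hv⟩
    rw [h1] at hv
    rcases Sym2.eq_iff.1 hv with ⟨rfl, h'⟩ | ⟨h', rfl⟩
    · exact hb h'
    · rw [h', partner_partner] at hb
      exact hb rfl
  have hn2 : e₂ ∉ good φ ends := by
    rintro ⟨v, hv⟩
    rw [h2] at hv
    rcases Sym2.eq_iff.1 hv with ⟨h', h''⟩ | ⟨h', h''⟩
    · rw [← h', partner_partner] at h''
      exact hd h''
    · have := congrArg (partner φ) h'
      rw [partner_partner, partner_partner] at this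
      exact hd (h''.trans this.symm)
  apply Set.ncard_lt_ncard _ (Set.toFinite _)
  refine ⟨?_, fun hsup => ?_⟩
  · intro e he
    have he1 : e ≠ e₁ := fun h' => hn1 (h' ▸ he)
    have he2 : e ≠ e₂ := fun h' => hn2 (h' ▸ he)
    obtain ⟨v, hv⟩ := he
    exact ⟨v, by rw [sw_other he1 he2]; exact hv⟩
  · have : e₁ ∈ good φ (sw ends e₁ e₂ a b (partner φ a) d) := ⟨a, sw_one hne⟩
    exact hn1 (hsup this)

/-- Interpolation: if some `r`-graph has less than `k` disjoint perfect matchings, `1 ≤ k < r`,
there is one with the same vertices and edges for which the largest number is `k` or `k - 1`. -/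
theorem interpolation [Finite V] [Finite E] {r : ℕ} {ends : E → Sym2 V} (h : IsRGraph r ends)
    {k : ℕ} (hk : 1 ≤ k) (hkr : k < r) (hnot : ¬ HasPMs ends k) :
    ∃ ends' : E → Sym2 V, IsRGraph r ends' ∧
      ((HasPMs ends' k ∧ ¬ HasPMs ends' (k + 1)) ∨ (HasPMs ends' (k - 1) ∧ ¬ HasPMs ends' k)) := by
  have hr0 : 1 ≤ r := by omega
  obtain ⟨m, ⟨φ⟩⟩ := exists_pairing (even_card hr0 h)
  have main : ∀ (n : ℕ) (ends : E → Sym2 V), IsRGraph r ends → ¬ HasPMs ends k →
      Nat.card E - (good φ ends).ncard = n → ∃ ends' : E → Sym2 V, IsRGraph r ends' ∧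
      ((HasPMs ends' k ∧ ¬ HasPMs ends' (k + 1)) ∨
        (HasPMs ends' (k - 1) ∧ ¬ HasPMs ends' k)) := by
    intro n
    induction n using Nat.strong_induction_on with
    | _ n ih =>
      intro ends h hnot hn
      by_cases hg : good φ ends = Set.univ
      · exact absurd (hasPMs_mono hkr.le (hasPMs_of_good h φ hg)) hnot
      · obtain ⟨a, ha⟩ := exists_deficient h φ hg
        obtain ⟨e₁, e₂, b, d, h1, h2, hb, hd, hgood⟩ := exists_good h (partner_ne φ a) ha
        set ends'' := sw ends e₁ e₂ a b (partner φ a) d with hdef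
        have hr'' : IsRGraph r ends'' := sw_isRGraph hr0 h h1 h2 (partner_ne φ a) hb hgood
        have hlt := good_sw h φ h1 h2 hb hd
        rw [← hdef] at hlt
        have hle : (good φ ends'').ncard ≤ Nat.card E := by
          rw [← Set.ncard_univ]
          exact Set.ncard_le_ncard (Set.subset_univ _) (Set.toFinite _)
        by_cases hk1 : HasPMs ends'' k
        · by_cases hk2 : HasPMs ends'' (k + 1)
          · refine ⟨ends, h, Or.inr ⟨?_, hnot⟩⟩
            have : k + 1 = (k - 1) + 2 := by omega
            rw [this] at hk2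
            exact hasPMs_sw hk2
          · exact ⟨ends'', hr'', Or.inl ⟨hk1, hk2⟩⟩
        · exact ih _ (by omega) ends'' hr'' hk1 rfl
  exact main _ ends h hnot rfl

theorem piEq_iff {ends : E → Sym2 V} {k : ℕ} :
    PiEq ends k ↔ HasPMs ends k ∧ ¬ HasPMs ends (k + 1) := by
  constructor
  · rintro ⟨h1, h2⟩
    exact ⟨h1, fun h => by have := h2 _ h; omega⟩
  · rintro ⟨h1, h2⟩
    refine ⟨h1, fun t ht => ?_⟩
    by_contra hlt
    exact h2 (hasPMs_mono (by omega) ht)

/-- Perfect matchings pull back along `H`-colourings. -/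
theorem hasPMs_colours [Finite E] {V' E' : Type} [Finite E'] {r : ℕ}
    {ends : E → Sym2 V} {ends' : E' → Sym2 V'} (h : IsRGraph r ends) (h' : IsRGraph r ends')
    (hc : Colours ends' ends) {t : ℕ} (ht : HasPMs ends' t) : HasPMs ends t := by
  obtain ⟨f, hf⟩ := hc
  obtain ⟨F, hF, hd⟩ := ht
  have hmem : ∀ {V E : Type} {ends : E → Sym2 V}, IsRGraph r ends → ∀ (v : V) (e : E),
      e ∈ boundary ends {v} ↔ v ∈ ends e := by
    intro V E ends h v e
    constructor
    · rintro ⟨x, hx, y, hy, hxy⟩
      obtain rfl : x = v := by simpa using hx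
      rw [hxy]; simp
    · intro hv
      obtain ⟨w, hw⟩ := hv
      refine ⟨v, rfl, w, ?_, hw⟩
      intro h''
      exact ne_of_ends h hw (by simpa using h''.symm)
  refine ⟨fun i => f ⁻¹' F i, ?_, fun i j hij => (hd i j hij).preimage f⟩
  intro i u
  obtain ⟨v, hv⟩ := hf u
  have hinj : Set.InjOn f (boundary ends {u}) := by
    apply Set.injOn_of_ncard_image_eq
    · rw [hv, h'.regular v, h.regular u]
    · exact Set.toFinite _
  obtain ⟨e', ⟨he', hve'⟩, huniq⟩ := hF i v
  have he'b : e' ∈ f '' boundary ends {u} := by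
    rw [hv, hmem h']
    exact hve'
  obtain ⟨e, heb, rfl⟩ := he'b
  refine ⟨e, ⟨he', (hmem h u e).1 heb⟩, ?_⟩
  rintro e₂ ⟨he₂, hu₂⟩
  have hb₂ : e₂ ∈ boundary ends {u} := (hmem h u e₂).2 hu₂
  apply hinj hb₂ heb
  apply huniq
  refine ⟨he₂, ?_⟩
  rw [← hmem h', ← hv]
  exact ⟨e₂, hb₂, rfl⟩

end RGraph
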