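import Pool.Agent.Work.MP_426d99_co.Gadget
import Pool.Agent.Work.MP_426d99_co.Walk

open Finset Classical

namespace RGraph.Gad

/-- `F` is a perfect matching of the gadget, except that the vertex `0` (resp. `5`) is left
unmatched if `P0` (resp. `P5`) holds. -/
structure LocalPM (w : ℕ) (F : Set (Fin 10 ⊕ (Fin 4 × Fin w))) (P0 P5 : Prop) : Prop where
  other : ∀ z, z ≠ 0 → z ≠ 5 → ∃! j, j ∈ F ∧ z ∈ q w j
  zero : P0 → ∀ j ∈ F, (0 : Fin 10) ∉ q w j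
  zero' : ¬ P0 → ∃! j, j ∈ F ∧ (0 : Fin 10) ∈ q w j
  five : P5 → ∀ j ∈ F, (5 : Fin 10) ∉ q w j
  five' : ¬ P5 → ∃! j, j ∈ F ∧ (5 : Fin 10) ∈ q w j

theorem lt_ne : ∀ z, lt1 z ≠ lt2 z := by decide

theorem at_other {w : ℕ} {F : Set (Fin 10 ⊕ (Fin 4 × Fin w))} {z : Fin 10} {s : Fin 4}
    (hz : z = hu s ∨ z = hv s) (h : ∃! j, j ∈ F ∧ z ∈ q w j) :
    ¬ (Sum.inl (lt1 z) ∈ F ∧ Sum.inl (lt2 z) ∈ F) ∧
      ((Sum.inl (lt1 z) ∈ F ∨ Sum.inl (lt2 z) ∈ F) ↔ ¬ ∃ t, Sum.inr (s, t) ∈ F) := by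
  obtain ⟨j, ⟨hjF, hjz⟩, huniq⟩ := h
  have m1 : z ∈ q w (Sum.inl (lt1 z)) := (mem_light w z _).2 (Or.inl rfl)
  have m2 : z ∈ q w (Sum.inl (lt2 z)) := (mem_light w z _).2 (Or.inr rfl)
  have m3 : ∀ t, z ∈ q w (Sum.inr (s, t)) := fun t => (mem_heavy w z _).2 hz
  have hs : ∀ s' : Fin 4, (z = hu s' ∨ z = hv s') → s' = s := by
    have key : ∀ (z : Fin 10) (s s' : Fin 4), (z = hu s ∨ z = hv s) → (z = hu s' ∨ z = hv s') →
        s' = s := by decide +kernel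
    exact fun s' hs' => key z s s' hz hs'
  refine ⟨?_, ?_, ?_⟩
  · rintro ⟨h1, h2⟩
    have := (huniq _ ⟨h1, m1⟩).trans (huniq _ ⟨h2, m2⟩).symm
    exact lt_ne z (Sum.inl_injective this)
  · rintro h12 ⟨t, ht⟩
    rcases h12 with h1 | h2
    · have := (huniq _ ⟨h1, m1⟩).trans (huniq _ ⟨ht, m3 t⟩).symm
      exact Sum.inl_ne_inr this
    · have := (huniq _ ⟨h2, m2⟩).trans (huniq _ ⟨ht, m3 t⟩).symm
      exact Sum.inl_ne_inr this
  · intro hno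
    rcases j with a | p
    · rcases (mem_light w z a).1 hjz with rfl | rfl
      · exact Or.inl hjF
      · exact Or.inr hjF
    · exfalso
      have hp := hs p.1 ((mem_heavy w z p).1 hjz)
      apply hno
      refine ⟨p.2, ?_⟩
      rw [← hp]
      exact hjF

theorem at_end {w : ℕ} {F : Set (Fin 10 ⊕ (Fin 4 × Fin w))} {z : Fin 10}
    (hz : z = 0 ∨ z = 5) {P : Prop} (h : P → ∀ j ∈ F, z ∉ q w j)
    (h' : ¬ P → ∃! j, j ∈ F ∧ z ∈ q w j) :
    one (decide (Sum.inl (lt1 z) ∈ F)) (decide (Sum.inl (lt2 z) ∈ F)) (decide P) = true := by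
  have m1 : z ∈ q w (Sum.inl (lt1 z)) := (mem_light w z _).2 (Or.inl rfl)
  have m2 : z ∈ q w (Sum.inl (lt2 z)) := (mem_light w z _).2 (Or.inr rfl)
  by_cases hP : P
  · have h1 : Sum.inl (lt1 z) ∉ F := fun hh => h hP _ hh m1
    have h2 : Sum.inl (lt2 z) ∉ F := fun hh => h hP _ hh m2
    simp [one, h1, h2, hP]
  · obtain ⟨j, ⟨hjF, hjz⟩, huniq⟩ := h' hP
    have hnot : ¬ (Sum.inl (lt1 z) ∈ F ∧ Sum.inl (lt2 z) ∈ F) := by
      rintro ⟨h1, h2⟩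
      have := (huniq _ ⟨h1, m1⟩).trans (huniq _ ⟨h2, m2⟩).symm
      exact lt_ne z (Sum.inl_injective this)
    have hor : Sum.inl (lt1 z) ∈ F ∨ Sum.inl (lt2 z) ∈ F := by
      rcases j with a | p
      · rcases (mem_light w z a).1 hjz with rfl | rfl
        · exact Or.inl hjF
        · exact Or.inr hjF
      · exfalso
        have key : ∀ (z : Fin 10) (s : Fin 4), (z = 0 ∨ z = 5) → ¬ (z = hu s ∨ z = hv s) := by
          decide +kernel
        exact key z p.1 hz ((mem_heavy w z p).1 hjz)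
    rcases hor with h1 | h1
    · have h2 : Sum.inl (lt2 z) ∉ F := fun h2 => hnot ⟨h1, h2⟩
      simp [one, h1, h2, hP]
    · have h2 : Sum.inl (lt1 z) ∉ F := fun h2 => hnot ⟨h2, h1⟩
      simp [one, h1, h2, hP]

/-- The light edges used. -/
noncomputable def lightOf {w : ℕ} (F : Set (Fin 10 ⊕ (Fin 4 × Fin w))) : Fin 10 → Bool :=
  fun a => decide (Sum.inl a ∈ F)

theorem valid_of {w : ℕ} {F : Set (Fin 10 ⊕ (Fin 4 × Fin w))} {P0 P5 : Prop}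
    (h : LocalPM w F P0 P5) : valid (lightOf F) (decide P0) (decide P5) = true := by
  have hz : ∀ s, (hu s ≠ 0 ∧ hu s ≠ 5) ∧ (hv s ≠ 0 ∧ hv s ≠ 5) := by decide
  unfold valid
  rw [Bool.and_eq_true, Bool.and_eq_true]
  refine ⟨⟨at_end (Or.inl rfl) h.zero h.zero', at_end (Or.inr rfl) h.five h.five'⟩, ?_⟩
  rw [List.all_eq_true]
  intro s _
  obtain ⟨a1, a2⟩ := at_other (Or.inl rfl) (h.other (hu s) (hz s).1.1 (hz s).1.2)
  obtain ⟨b1, b2⟩ := at_other (Or.inr rfl) (h.other (hv s) (hz s).2.1 (hz s).2.2)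
  have hab := a2.trans b2.symm
  simp only [lightOf, Bool.and_eq_true, Bool.not_eq_true', beq_iff_eq]
  refine ⟨⟨?_, ?_⟩, ?_⟩
  · rw [← Bool.decide_and, decide_eq_false_iff_not]
    exact a1
  · rw [← Bool.decide_and, decide_eq_false_iff_not]
    exact b1
  · rw [← Bool.decide_or, ← Bool.decide_or, decide_eq_decide]
    exact hab

theorem hb_of {w : ℕ} {F : Set (Fin 10 ⊕ (Fin 4 × Fin w))} {P0 P5 : Prop}
    (h : LocalPM w F P0 P5) {s : Fin 4} (hs : hb (lightOf F) s = true) :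
    ∃ t, Sum.inr (s, t) ∈ F := by
  have hz : ∀ s, (hu s ≠ 0 ∧ hu s ≠ 5) := by decide
  obtain ⟨a1, a2⟩ := at_other (Or.inl rfl) (h.other (hu s) (hz s).1 (hz s).2)
  unfold hb lightOf at hs
  by_contra hno
  rcases a2.2 hno with h1 | h1 <;> simp [h1] at hs

theorem local_iff {w : ℕ} {F : Set (Fin 10 ⊕ (Fin 4 × Fin w))} {P0 P5 : Prop}
    (h : LocalPM w F P0 P5) : P0 ↔ P5 := by
  have := (classify (valid_of h)).1
  rwa [decide_eq_decide] at this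

theorem local_F {w : ℕ} {F : Set (Fin 10 ⊕ (Fin 4 × Fin w))} {P0 P5 : Prop}
    (h : LocalPM w F P0 P5) (hP : ¬ P0) : lightOf F ∈ listF := by
  have := (classify (valid_of h)).2
  simpa [hP] using this

theorem local_T {w : ℕ} {F : Set (Fin 10 ⊕ (Fin 4 × Fin w))} {P0 P5 : Prop}
    (h : LocalPM w F P0 P5) (hP : P0) : lightOf F ∈ listT := by
  have := (classify (valid_of h)).2
  simpa [hP] using this

theorem not_disjoint_FF {w : ℕ} {F F' : Set (Fin 10 ⊕ (Fin 4 × Fin w))} {P0 P5 P0' P5' : Prop}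
    (h : LocalPM w F P0 P5) (h' : LocalPM w F' P0' P5') (hP : ¬ P0) (hP' : ¬ P0') :
    ∃ j, j ∈ F ∧ j ∈ F' := by
  obtain ⟨a, h1, h2⟩ := pairFF _ (local_F h hP) _ (local_F h' hP')
  exact ⟨Sum.inl a, of_decide_eq_true h1, of_decide_eq_true h2⟩

theorem not_disjoint_TF {F F' : Set (Fin 10 ⊕ (Fin 4 × Fin 1))} {P0 P5 P0' P5' : Prop}
    (h : LocalPM 1 F P0 P5) (h' : LocalPM 1 F' P0' P5') (hP : P0) (hP' : ¬ P0') :
    ∃ j, j ∈ F ∧ j ∈ F' := by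
  rcases pairTF _ (local_T h hP) _ (local_F h' hP') with ⟨a, h1, h2⟩ | ⟨s, h1, h2⟩
  · exact ⟨Sum.inl a, of_decide_eq_true h1, of_decide_eq_true h2⟩
  · obtain ⟨t, ht⟩ := hb_of h h1
    obtain ⟨t', ht'⟩ := hb_of h' h2
    have : t = t' := Subsingleton.elim _ _
    subst this
    exact ⟨_, ht, ht'⟩

end RGraph.Gad
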