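import Pool.Agent.Work.MP_426d99_co.Cuts

open Finset Classical

namespace RGraph

variable {V E : Type}

/-- A tight odd set avoiding `a` and `c`. -/
def Tight (r : ℕ) (ends : E → Sym2 V) (a c : V) (Y : Set V) : Prop :=
  Odd Y.ncard ∧ (boundary ends Y).ncard = r ∧ a ∉ Y ∧ c ∉ Y

theorem tight_union [Finite V] [Finite E] {r : ℕ} {ends : E → Sym2 V} (h : IsRGraph r ends)
    {a c : V} {Y₁ Y₂ : Set V} (h1 : Tight r ends a c Y₁) (h2 : Tight r ends a c Y₂)
    {e : E} {b x : V} (he : ends e = s(b, x)) (hx : x = a ∨ x = c) (hb1 : b ∈ Y₁)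
    (hb2 : b ∈ Y₂) : Tight r ends a c (Y₁ ∪ Y₂) := by
  obtain ⟨ho1, ht1, ha1, hc1⟩ := h1
  obtain ⟨ho2, ht2, ha2, hc2⟩ := h2
  have hcard := Set.ncard_union_add_ncard_inter Y₁ Y₂
  have hd1 := Set.ncard_inter_add_ncard_diff_eq_ncard Y₁ Y₂
  have hd2 := Set.ncard_inter_add_ncard_diff_eq_ncard Y₂ Y₁
  rw [Set.inter_comm] at hd2
  rcases Nat.even_or_odd (Y₁ ∩ Y₂).ncard with hev | hodd
  · exfalso
    have hx' : x ∉ Y₁ ∪ Y₂ := by
      rcases hx with rfl | rfl <;> simp [*]
    have hpos := posimod ends Y₁ Y₂ he ⟨hb1, hb2⟩ hx'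
    have o1 : Odd (Y₁ \ Y₂).ncard := by
      rw [← hd1] at ho1
      rw [Nat.odd_add] at ho1
      rcases Nat.even_or_odd (Y₁ \ Y₂).ncard with h' | h'
      · exact absurd (ho1.2 h') (Nat.not_odd_iff_even.2 hev)
      · exact h'
    have o2 : Odd (Y₂ \ Y₁).ncard := by
      rw [← hd2] at ho2
      rw [Nat.odd_add] at ho2
      rcases Nat.even_or_odd (Y₂ \ Y₁).ncard with h' | h'
      · exact absurd (ho2.2 h') (Nat.not_odd_iff_even.2 hev)
      · exact h'
    have := h.odd _ o1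
    have := h.odd _ o2
    omega
  · have hou : Odd (Y₁ ∪ Y₂).ncard := by
      rw [Nat.odd_iff] at *
      omega
    have h3 := h.odd _ hodd
    have h4 := h.odd _ hou
    have h5 := submod ends Y₁ Y₂
    refine ⟨hou, by omega, ?_, ?_⟩ <;> simp [*]

theorem other_end {r : ℕ} {ends : E → Sym2 V} (h : IsRGraph r ends) {a : V} {e : E}
    (he : e ∈ boundary ends {a}) : ∃ b, b ≠ a ∧ ends e = s(a, b) := by
  obtain ⟨x, hx, y, hy, hxy⟩ := he
  obtain rfl : x = a := by simpa using hx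
  exact ⟨y, by simpa using hy, hxy⟩

theorem exists_edge [Finite V] [Finite E] {r : ℕ} {ends : E → Sym2 V} (h : IsRGraph r ends)
    {a c : V} (hμ : {e | ends e = s(a, c)}.ncard < r) :
    ∃ e b, ends e = s(a, b) ∧ b ≠ c := by
  by_contra hcon
  push Not at hcon
  have : boundary ends {a} ⊆ {e | ends e = s(a, c)} := by
    intro e he
    obtain ⟨b, -, hb⟩ := other_end h he
    have := hcon e b hb
    simpa [this] using hb
  have h1 := Set.ncard_le_ncard this (Set.toFinite _)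
  rw [h.regular a] at h1
  omega

theorem ne_of_ends {r : ℕ} {ends : E → Sym2 V} (h : IsRGraph r ends) {e : E} {a b : V}
    (he : ends e = s(a, b)) : a ≠ b := by
  rintro rfl
  exact h.loopless e (by rw [he]; simp)

theorem exists_good [Finite V] [Finite E] {r : ℕ} {ends : E → Sym2 V} (h : IsRGraph r ends)
    {a c : V} (hac : a ≠ c) (hμ : {e | ends e = s(a, c)}.ncard < r) :
    ∃ e₁ e₂ b d, ends e₁ = s(a, b) ∧ ends e₂ = s(c, d) ∧ b ≠ c ∧ d ≠ a ∧
      ∀ Y, Tight r ends a c Y → ¬ (b ∈ Y ∧ d ∈ Y) := by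
  by_contra hcon
  push Not at hcon
  obtain ⟨e₁, b₀, he₁, hb₀⟩ := exists_edge h hμ
  have hμ' : {e | ends e = s(c, a)}.ncard < r := by
    simpa [Sym2.eq_swap] using hμ
  obtain ⟨e₂, d₀, he₂, hd₀⟩ := exists_edge h hμ'
  let s : Set (Set V) := {Y | Tight r ends a c Y ∧ b₀ ∈ Y}
  have hne : s.Nonempty := by
    obtain ⟨Y, hY, hbY, -⟩ := hcon e₁ e₂ b₀ d₀ he₁ he₂ hb₀ hd₀
    exact ⟨Y, hY, hbY⟩
  obtain ⟨Y, hYm⟩ := (Set.toFinite s).exists_maximal hne
  have hYt : Tight r ends a c Y := hYm.1.1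
  have hbY : b₀ ∈ Y := hYm.1.2
  have he₁' : ends e₁ = s(b₀, a) := by rw [he₁, Sym2.eq_swap]
  have hD : ∀ e d, ends e = s(c, d) → d ≠ a → d ∈ Y := by
    intro e d hed hda
    obtain ⟨Y', hY', hbY', hdY'⟩ := hcon e₁ e b₀ d he₁ hed hb₀ hda
    have hu := tight_union h hYt hY' he₁' (Or.inl rfl) hbY hbY'
    have := hYm.2 (y := Y ∪ Y') ⟨hu, Or.inl hbY⟩ Set.subset_union_left
    exact this (Or.inr hdY')
  have hd₀Y : d₀ ∈ Y := hD e₂ d₀ he₂ hd₀
  have he₂' : ends e₂ = s(d₀, c) := by rw [he₂, Sym2.eq_swap]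
  have hB : ∀ e b, ends e = s(a, b) → b ≠ c → b ∈ Y := by
    intro e b heb hbc
    obtain ⟨Y', hY', hbY', hdY'⟩ := hcon e e₂ b d₀ heb he₂ hbc hd₀
    have hu := tight_union h hYt hY' he₂' (Or.inr rfl) hd₀Y hdY'
    have := hYm.2 (y := Y ∪ Y') ⟨hu, Or.inl hbY⟩ Set.subset_union_left
    exact this (Or.inr hbY')
  obtain ⟨hYo, hYr, haY, hcY⟩ := hYt
  set Z : Set V := insert a (insert c Y) with hZ
  have hZcard : Z.ncard = Y.ncard + 2 := by
    rw [hZ, Set.ncard_insert_of_notMem _ (Set.toFinite _),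
      Set.ncard_insert_of_notMem hcY (Set.toFinite _)]
    simp [hac, haY]
  have hZo : Odd Z.ncard := by
    rw [hZcard]
    rw [Nat.odd_iff] at *
    omega
  have hsub : boundary ends Z ⊆ boundary ends Y := by
    rintro e ⟨x, hx, y, hy, hxy⟩
    simp only [hZ, Set.mem_insert_iff, not_or] at hx hy
    rcases hx with rfl | rfl | hx
    · exact absurd (hB e y hxy hy.2.1) hy.2.2
    · exact absurd (hD e y hxy hy.1) hy.2.2
    · exact ⟨x, hx, y, hy.2.2, hxy⟩
  have hss : boundary ends Z ⊂ boundary ends Y := by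
    refine ⟨hsub, fun hsup => ?_⟩
    have h1 : e₁ ∈ boundary ends Y := ⟨b₀, hbY, a, haY, he₁'⟩
    have h2 := hsup h1
    rw [mem_boundary he₁] at h2
    apply h2
    simp [hZ, hbY]
  have h3 := Set.ncard_lt_ncard hss (Set.toFinite _)
  have h4 := h.odd Z hZo
  omega

/-- The switch: `e₁ = ab`, `e₂ = cd` are replaced by `e₁ = ac`, `e₂ = bd`. -/
noncomputable def sw (ends : E → Sym2 V) (e₁ e₂ : E) (a b c d : V) : E → Sym2 V :=
  Function.update (Function.update ends e₁ s(a, c)) e₂ s(b, d)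

theorem sum_two [Fintype E] {f g : E → ℕ} {e₁ e₂ : E} (hne : e₁ ≠ e₂)
    (h : ∀ e, e ≠ e₁ → e ≠ e₂ → f e = g e) :
    ∑ e, f e + g e₁ + g e₂ = ∑ e, g e + f e₁ + f e₂ := by
  have h1 := Finset.sum_sdiff (f := f) (Finset.subset_univ ({e₁, e₂} : Finset E))
  have h2 := Finset.sum_sdiff (f := g) (Finset.subset_univ ({e₁, e₂} : Finset E))
  rw [Finset.sum_pair hne] at h1 h2
  have h3 : ∑ e ∈ univ \ {e₁, e₂}, f e = ∑ e ∈ univ \ {e₁, e₂}, g e := by
    apply Finset.sum_congr rfl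
    intro e he
    simp only [Finset.mem_sdiff, Finset.mem_univ, Finset.mem_insert, Finset.mem_singleton,
      true_and, not_or] at he
    exact h e he.1 he.2
  omega

section

variable {ends : E → Sym2 V} {e₁ e₂ : E} {a b c d : V}

theorem sw_one (hne : e₁ ≠ e₂) : sw ends e₁ e₂ a b c d e₁ = s(a, c) := by
  simp [sw, hne]

theorem sw_two : sw ends e₁ e₂ a b c d e₂ = s(b, d) := by
  simp [sw]

theorem sw_other {e : E} (h1 : e ≠ e₁) (h2 : e ≠ e₂) : sw ends e₁ e₂ a b c d e = ends e := by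
  simp [sw, h1, h2]

theorem sw_card [Finite E] (hne : e₁ ≠ e₂) (X : Set V) :
    (boundary (sw ends e₁ e₂ a b c d) X).ncard + ind ends X e₁ + ind ends X e₂ =
      (boundary ends X).ncard + ind (sw ends e₁ e₂ a b c d) X e₁ +
        ind (sw ends e₁ e₂ a b c d) X e₂ := by
  have := Fintype.ofFinite E
  rw [ncard_eq, ncard_eq]
  apply sum_two hne
  intro e h1 h2
  unfold ind boundary
  rw [Set.mem_setOf_eq, Set.mem_setOf_eq, sw_other h1 h2]

theorem sw_isRGraph [Finite V] [Finite E] {r : ℕ} (hr0 : 1 ≤ r) (h : IsRGraph r ends)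
    (h1 : ends e₁ = s(a, b)) (h2 : ends e₂ = s(c, d)) (hac : a ≠ c) (hbc : b ≠ c)
    (hgood : ∀ Y, Tight r ends a c Y → ¬ (b ∈ Y ∧ d ∈ Y)) :
    IsRGraph r (sw ends e₁ e₂ a b c d) := by
  have hab : a ≠ b := ne_of_ends h h1
  have hcd : c ≠ d := ne_of_ends h h2
  have hbd : b ≠ d := by
    rintro rfl
    refine hgood {b} ⟨by simp, h.regular b, by simpa using hab, by simpa using hbc.symm⟩ ?_
    simp
  have hne : e₁ ≠ e₂ := by
    rintro rfl
    rw [h1] at h2
    rcases Sym2.eq_iff.1 h2 with ⟨rfl, -⟩ | ⟨-, rfl⟩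
    · exact hac rfl
    · exact hbc rfl
  have key := fun X => sw_card (ends := ends) (a := a) (b := b) (c := c) (d := d) hne X
  refine ⟨?_, ?_, ?_⟩
  · intro e
    by_cases he1 : e = e₁
    · subst he1
      rw [sw_one hne]
      simpa using hac
    · by_cases he2 : e = e₂
      · subst he2
        rw [sw_two]
        simpa using hbd
      · rw [sw_other he1 he2]
        exact h.loopless e
  · intro v
    have hk := key {v}
    rw [ind_eq h1, ind_eq h2, ind_eq (sw_one hne), ind_eq sw_two, h.regular v] at hk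
    simp only [Set.mem_singleton_iff] at hk
    by_cases ha : a = v <;> by_cases hb : b = v <;> by_cases hc : c = v <;>
      by_cases hd : d = v <;> simp_all
  · intro X hX
    have hk := key X
    have hd1 := h.odd X hX
    rw [ind_eq h1, ind_eq h2, ind_eq (sw_one hne), ind_eq sw_two] at hk
    have hpar := parity h.regular X
    have hpar' : (boundary ends X).ncard ≠ r → r + 2 ≤ (boundary ends X).ncard := by
      intro hne'
      have h5 : (X.ncard * r) % 2 = r % 2 := by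
        obtain ⟨m, hm⟩ := hX
        rw [hm, add_mul, mul_assoc, one_mul, Nat.add_mod, Nat.mul_mod_right]
        simp
      omega
    have hbad1 : a ∈ X → c ∈ X → b ∉ X → d ∉ X → (boundary ends X).ncard ≠ r := by
      intro ha hc hb hd heq
      refine hgood Xᶜ ⟨?_, by rw [boundary_compl]; exact heq, by simpa using ha,
        by simpa using hc⟩ ⟨hb, hd⟩
      have hev := even_card hr0 h
      have := Set.ncard_add_ncard_compl X
      rw [Nat.odd_iff] at *
      rw [Nat.even_iff] at hev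
      omega
    have hbad2 : a ∉ X → c ∉ X → b ∈ X → d ∈ X → (boundary ends X).ncard ≠ r := by
      intro ha hc hb hd heq
      exact hgood X ⟨hX, heq, ha, hc⟩ ⟨hb, hd⟩
    by_cases ha : a ∈ X <;> by_cases hb : b ∈ X <;> by_cases hc : c ∈ X <;>
      by_cases hd : d ∈ X <;> simp [ha, hb, hc, hd] at hk hbad1 hbad2 <;> omega

end

/-- A family of disjoint perfect matchings indexed by a large type. -/
theorem hasPMs_of {ends : E → Sym2 V} {ι : Type} [Fintype ι] (F : ι → Set E)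
    (hF : ∀ i, IsPM ends (F i)) (hd : ∀ i j, i ≠ j → Disjoint (F i) (F j)) {t : ℕ}
    (ht : t ≤ Fintype.card ι) : HasPMs ends t := by
  have : Nonempty (Fin t ↪ ι) := Function.Embedding.nonempty_of_card_le (by simpa using ht)
  obtain ⟨g⟩ := this
  exact ⟨fun i => F (g i), fun i => hF _, fun i j hij => hd _ _ (fun h => hij (g.injective h))⟩

theorem hasPMs_mono {ends : E → Sym2 V} {s t : ℕ} (hst : s ≤ t) (h : HasPMs ends t) :
    HasPMs ends s := by
  obtain ⟨F, hF, hd⟩ := h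
  exact hasPMs_of F hF hd (by simpa using hst)

theorem hasPMs_sw {ends : E → Sym2 V} {e₁ e₂ : E} {a b c d : V} {t : ℕ}
    (h : HasPMs (sw ends e₁ e₂ a b c d) (t + 2)) : HasPMs ends t := by
  obtain ⟨F, hF, hd⟩ := h
  have hcard : t ≤ Fintype.card {i : Fin (t + 2) // e₁ ∉ F i ∧ e₂ ∉ F i} := by
    rw [Fintype.card_subtype]
    have h1 : (univ.filter (fun i : Fin (t + 2) => e₁ ∈ F i)).card ≤ 1 := by
      rw [Finset.card_le_one]
      intro i hi j hj
      by_contra hij
      exact Set.disjoint_left.1 (hd i j hij) (Finset.mem_filter.1 hi).2 (Finset.mem_filter.1 hj).2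
    have h2 : (univ.filter (fun i : Fin (t + 2) => e₂ ∈ F i)).card ≤ 1 := by
      rw [Finset.card_le_one]
      intro i hi j hj
      by_contra hij
      exact Set.disjoint_left.1 (hd i j hij) (Finset.mem_filter.1 hi).2 (Finset.mem_filter.1 hj).2
    have h3 : (univ : Finset (Fin (t + 2))) ⊆
        (univ.filter (fun i : Fin (t + 2) => e₁ ∉ F i ∧ e₂ ∉ F i)) ∪
          ((univ.filter (fun i : Fin (t + 2) => e₁ ∈ F i)) ∪
            (univ.filter (fun i : Fin (t + 2) => e₂ ∈ F i))) := by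
      intro i _
      simp only [Finset.mem_union, Finset.mem_filter, Finset.mem_univ, true_and]
      tauto
    have h4 := Finset.card_le_card h3
    have h5 := Finset.card_union_le (univ.filter (fun i : Fin (t + 2) => e₁ ∉ F i ∧ e₂ ∉ F i))
      ((univ.filter (fun i : Fin (t + 2) => e₁ ∈ F i)) ∪
            (univ.filter (fun i : Fin (t + 2) => e₂ ∈ F i)))
    have h6 := Finset.card_union_le (univ.filter (fun i : Fin (t + 2) => e₁ ∈ F i))
      (univ.filter (fun i : Fin (t + 2) => e₂ ∈ F i))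
    rw [Finset.card_univ, Fintype.card_fin] at h4
    omega
  refine hasPMs_of (fun i : {i : Fin (t + 2) // e₁ ∉ F i ∧ e₂ ∉ F i} => F i.1) ?_ ?_ hcard
  · intro i v
    have hsw : ∀ e ∈ F i.1, sw ends e₁ e₂ a b c d e = ends e := by
      intro e he
      exact sw_other (fun h => i.2.1 (h ▸ he)) (fun h => i.2.2 (h ▸ he))
    obtain ⟨e, ⟨he, hv⟩, huniq⟩ := hF i.1 v
    refine ⟨e, ⟨he, by rwa [← hsw e he]⟩, ?_⟩
    rintro e' ⟨he', hv'⟩
    exact huniq e' ⟨he', by rwa [hsw e' he']⟩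
  · intro i j hij
    exact hd _ _ (fun h => hij (Subtype.ext h))

end RGraph
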